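import Mathlib

/-!
# Minimal-norm interpolation in `H^∞` of the unit disc: definitions
-/

open Filter Topology
open scoped ComplexConjugate

namespace Pool.Agent.MinimalInterpolation

/-- The open unit disc. -/
abbrev Disc : Set ℂ := Metric.ball (0 : ℂ) 1

/-- `g` is analytic and bounded on the unit disc. -/
def IsHInf (g : ℂ → ℂ) : Prop :=
  DifferentiableOn ℂ g Disc ∧ ∃ M : ℝ, ∀ w ∈ Disc, ‖g w‖ ≤ M

/-- The supremum of `|g|` over the unit disc. -/
noncomputable def supNorm (g : ℂ → ℂ) : ℝ := ⨆ w : Disc, ‖g w‖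

/-- A Blaschke sequence: distinct points of the disc with `∑ (1 - |z_n|) < ∞`. -/
def IsBlaschkeSeq (z : ℕ → ℂ) : Prop :=
  Function.Injective z ∧ (∀ n, z n ∈ Disc) ∧ Summable fun n => 1 - ‖z n‖

/-- `g ∈ H^∞` takes the values of `f` on the sequence `z`. -/
def IsInterpolant (f : ℂ → ℂ) (z : ℕ → ℂ) (g : ℂ → ℂ) : Prop :=
  IsHInf g ∧ ∀ n, g (z n) = f (z n)

/-- `g` is an interpolant of smallest norm. -/
def IsMinimalInterpolant (f : ℂ → ℂ) (z : ℕ → ℂ) (g : ℂ → ℂ) : Prop :=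
  IsInterpolant f z g ∧ ∀ h : ℂ → ℂ, IsInterpolant f z h → supNorm g ≤ supNorm h

/-- `B` is (on the disc) the Blaschke product
`e^{iθ} z^k ∏_j (|a_j| / a_j) (a_j - z) / (1 - \bar a_j z)`, where `j` runs through the finite or
infinite set `s` of natural numbers, the `a_j` are nonzero points of the disc (repetitions allowed)
and `∑_j (1 - |a_j|) < ∞`. -/
def IsBlaschkeProduct (B : ℂ → ℂ) : Prop :=
  ∃ (θ : ℝ) (k : ℕ) (s : Set ℕ) (a : ℕ → ℂ),
    (∀ j ∈ s, a j ≠ 0 ∧ a j ∈ Disc) ∧ (Summable fun j : s => 1 - ‖a j‖) ∧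
    ∀ w ∈ Disc, B w = Complex.exp (θ * Complex.I) * w ^ k *
      ∏' j : s, ((‖a j‖ : ℂ) / a j * ((a j - w) / (1 - conj (a j) * w)))

/-- The singular inner function `exp (-(1+w)/(1-w))`. -/
noncomputable def singularInner (w : ℂ) : ℂ := Complex.exp (-((1 + w) / (1 - w)))

end Pool.Agent.MinimalInterpolation
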