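import Pool.Agent.MinimalInterpolation.HalfPlane

/-!
# Transfer to the disc

The zeros of `D` in the half plane, moved to the disc, form a Blaschke sequence along which the
singular inner function `exp (-(1+w)/(1-w))` tends to zero, and it is the only minimal-norm
interpolant of its own values there.
-/

open Complex MeasureTheory Filter Topology Set
open scoped ComplexConjugate

namespace Pool.Agent.MinimalInterpolation

noncomputable section

/-! ### the zeros satisfy the Blaschke condition -/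

lemma norm_Dd_le {z : ℂ} (hz : 0 ≤ z.im) : ‖Dd z‖ ≤ ‖Kk z‖ := by
  have hΘ : ‖exp (2 * I * z)‖ ≤ 1 := by
    rw [norm_exp_two, Real.exp_le_one_iff]; linarith
  unfold Dd Kk
  set Θ := exp (2 * I * z) with hΘdef
  have h1 : Θ.re ^ 2 + Θ.im ^ 2 ≤ 1 := by
    have h2 : normSq Θ ≤ 1 := by
      rw [normSq_eq_norm_sq]
      have := norm_nonneg Θ
      nlinarith
    rw [normSq_apply] at h2
    nlinarith
  have h2 : normSq ((z - I) * Θ - 1 / 2) ≤ normSq ((z + I) - 1 / 2 * Θ) := by
    rw [normSq_apply, normSq_apply]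
    simp only [sub_re, mul_re, add_re, I_re, I_im, add_im, sub_im, mul_im, one_re,
      one_im, div_ofNat_re, div_ofNat_im]
    set x := z.re
    set y := z.im
    set s := Θ.re
    set t := Θ.im
    have h3 : 0 ≤ (1 - s ^ 2 - t ^ 2) * (x ^ 2 + y ^ 2 + 3 / 4) := by
      apply mul_nonneg (by linarith) (by positivity)
    have h4 : 0 ≤ y * (1 + s ^ 2 + t ^ 2 - t) := by
      apply mul_nonneg hz
      nlinarith [sq_nonneg (t - 1 / 2), sq_nonneg s]
    nlinarith
  rw [normSq_eq_norm_sq, normSq_eq_norm_sq] at h2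
  exact (sq_le_sq₀ (norm_nonneg _) (norm_nonneg _)).1 h2

/-- the Cayley transform of the disc onto the half plane -/
def zmap (w : ℂ) : ℂ := I * ((1 + w) / (1 - w))
/-- the Cayley transform of the half plane onto the disc -/
def cay (z : ℂ) : ℂ := (z - I) / (z + I)

lemma one_sub_ne_zero {w : ℂ} (hw : w ∈ Disc) : 1 - w ≠ 0 := by
  intro h
  have : w = 1 := (sub_eq_zero.1 h).symm
  rw [this] at hw
  simp [Disc] at hw

lemma zmap_im {w : ℂ} (hw : w ∈ Disc) : (zmap w).im = (1 - ‖w‖ ^ 2) / ‖1 - w‖ ^ 2 := by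
  have h0 := one_sub_ne_zero hw
  have h1 : (zmap w).im = ((1 + w) / (1 - w)).re := by
    unfold zmap; simp
  rw [h1, div_re, ← normSq_eq_norm_sq, ← normSq_eq_norm_sq, normSq_apply, normSq_apply]
  simp only [add_re, sub_re, one_re, add_im, sub_im, one_im]
  rw [← add_div]
  congr 1
  ring

lemma zmap_mem {w : ℂ} (hw : w ∈ Disc) : zmap w ∈ HP := by
  show 0 < (zmap w).im
  rw [zmap_im hw]
  have h0 := norm_pos_iff.2 (one_sub_ne_zero hw)
  have h1 : ‖w‖ < 1 := by simpa [Disc] using hw
  have h2 := norm_nonneg w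
  have : 0 < 1 - ‖w‖ ^ 2 := by nlinarith
  positivity

lemma cay_mem {z : ℂ} (hz : z ∈ HP) : cay z ∈ Disc := by
  have hz' : 0 < z.im := hz
  have h0 := add_I_ne_zero hz'.le
  have h1 : ‖z - I‖ < ‖z + I‖ := by
    have h2 : normSq (z - I) < normSq (z + I) := by
      rw [normSq_apply, normSq_apply]
      simp only [sub_re, add_re, sub_im, add_im, I_re, I_im]
      nlinarith
    rw [normSq_eq_norm_sq, normSq_eq_norm_sq] at h2
    exact (sq_lt_sq₀ (norm_nonneg _) (norm_nonneg _)).1 h2
  rw [Disc, mem_ball_zero_iff]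
  unfold cay
  rw [norm_div, div_lt_one (norm_pos_iff.2 h0)]
  exact h1

lemma cay_zmap {w : ℂ} (hw : w ∈ Disc) : cay (zmap w) = w := by
  have h0 := one_sub_ne_zero hw
  have h1 := add_I_ne_zero (le_of_lt (zmap_mem hw))
  unfold cay
  rw [div_eq_iff h1]
  unfold zmap
  field_simp
  ring

lemma zmap_cay {z : ℂ} (hz : z ∈ HP) : zmap (cay z) = z := by
  have h1 := add_I_ne_zero (le_of_lt (show 0 < z.im from hz))
  have h2 := one_sub_ne_zero (cay_mem hz)
  have e1 : 1 - cay z = 2 * I / (z + I) := by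
    unfold cay; field_simp; ring
  have e2 : 1 + cay z = 2 * z / (z + I) := by
    unfold cay; field_simp; ring
  unfold zmap
  rw [e1, e2]
  have := I_ne_zero
  field_simp

lemma singularInner_eq (w : ℂ) : singularInner w = exp (I * zmap w) := by
  unfold singularInner zmap
  congr 1
  linear_combination (-(1 + w) / (1 - w)) * I_mul_I

lemma diff_zmap : DifferentiableOn ℂ zmap Disc := by
  unfold zmap
  refine DifferentiableOn.const_mul ?_ _
  exact DifferentiableOn.div (by fun_prop) (by fun_prop) fun w hw => one_sub_ne_zero hw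

/-- the inner function on the disc -/
def bb (w : ℂ) : ℂ := Dd (zmap w) / Kk (zmap w)

lemma diff_bb : DifferentiableOn ℂ bb Disc := by
  unfold bb
  refine DifferentiableOn.div ?_ ?_ ?_
  · exact differentiable_Dd.comp_differentiableOn diff_zmap
  · exact differentiable_Kk.comp_differentiableOn diff_zmap
  · intro w hw
    exact Kk_ne_zero (le_of_lt (zmap_mem hw))

lemma norm_bb_le {w : ℂ} (hw : w ∈ Disc) : ‖bb w‖ ≤ 1 := by
  unfold bb
  have h1 : 0 ≤ (zmap w).im := le_of_lt (zmap_mem hw)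
  rw [norm_div, div_le_one (norm_pos_iff.2 (Kk_ne_zero h1))]
  exact norm_Dd_le h1

lemma bb_zero_ne : bb 0 ≠ 0 := by
  have h0 : zmap 0 = I := by unfold zmap; simp
  unfold bb
  rw [h0]
  refine div_ne_zero ?_ (Kk_ne_zero (by simp))
  unfold Dd
  simp

/-- Schwarz-Pick for a function with a zero at `a`. -/
lemma norm_dslope_mul_le {b : ℂ → ℂ} (hb : DifferentiableOn ℂ b Disc) (hb1 : ∀ w ∈ Disc, ‖b w‖ ≤ 1)
    {a : ℂ} (ha : a ∈ Disc) (hba : b a = 0) {w : ℂ} (hw : w ∈ Disc) :
    ‖dslope b a w * (1 - conj a * w)‖ ≤ 1 := by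
  have hden : ∀ {a w : ℂ}, a ∈ Disc → w ∈ Disc → 1 + conj a * w ≠ 0 := by
    intro a w ha hw h
    have h1 : ‖conj a * w‖ < 1 := by
      rw [norm_mul, RCLike.norm_conj]
      have h2 : ‖a‖ < 1 := by simpa [Disc] using ha
      have h3 : ‖w‖ < 1 := by simpa [Disc] using hw
      have := norm_nonneg a
      have := norm_nonneg w
      nlinarith
    have h4 : conj a * w = -1 := by linear_combination h
    rw [h4] at h1
    simp at h1
  have hden' : ∀ {a w : ℂ}, a ∈ Disc → w ∈ Disc → 1 - conj a * w ≠ 0 := by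
    intro a w ha hw h
    have h1 : ‖conj a * w‖ < 1 := by
      rw [norm_mul, RCLike.norm_conj]
      have h2 : ‖a‖ < 1 := by simpa [Disc] using ha
      have h3 : ‖w‖ < 1 := by simpa [Disc] using hw
      have := norm_nonneg a
      have := norm_nonneg w
      nlinarith
    have h4 : conj a * w = 1 := by linear_combination -h
    rw [h4] at h1
    simp at h1
  -- the automorphism
  have hauto : ∀ {a w : ℂ}, a ∈ Disc → w ∈ Disc → (w + a) / (1 + conj a * w) ∈ Disc := by
    intro a w ha hw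
    rw [Disc, mem_ball_zero_iff, norm_div, div_lt_one (norm_pos_iff.2 (hden ha hw))]
    have h2 : ‖a‖ < 1 := by simpa [Disc] using ha
    have h3 : ‖w‖ < 1 := by simpa [Disc] using hw
    have e1 : normSq (1 + conj a * w) - normSq (w + a) = (1 - normSq a) * (1 - normSq w) := by
      simp only [normSq_apply, add_re, add_im, mul_re, mul_im, conj_re, conj_im, one_re, one_im]
      ring
    have h4 : normSq a < 1 := by rw [normSq_eq_norm_sq]; nlinarith [norm_nonneg a]
    have h5 : normSq w < 1 := by rw [normSq_eq_norm_sq]; nlinarith [norm_nonneg w]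
    have h6 : normSq (w + a) < normSq (1 + conj a * w) := by nlinarith
    rw [normSq_eq_norm_sq, normSq_eq_norm_sq] at h6
    exact (sq_lt_sq₀ (norm_nonneg _) (norm_nonneg _)).1 h6
  -- the case `w ≠ a`
  have hne : ∀ w ∈ Disc, w ≠ a → ‖dslope b a w * (1 - conj a * w)‖ ≤ 1 := by
    intro w hw hwa
    set ζ := (w + -a) / (1 + conj (-a) * w) with hζ
    have hna : -a ∈ Disc := by simpa [Disc] using ha
    have hζD : ζ ∈ Disc := hauto hna hw
    have hback : (ζ + a) / (1 + conj a * ζ) = w := by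
      have h1 := hden hna hw
      have h2 := hden ha hζD
      rw [div_eq_iff h2, hζ]
      have h3 : 1 - conj a * w ≠ 0 := hden' ha hw
      have h4 : 1 - w * conj a ≠ 0 := by rwa [mul_comm w]
      rw [map_neg, neg_mul, ← sub_eq_add_neg 1]
      field_simp
      ring
    have hS := Complex.norm_le_norm_of_mapsTo_ball (R := 1)
      (f := fun ζ => b ((ζ + a) / (1 + conj a * ζ))) ?_ ?_ ?_
      (z := ζ) (by simpa [Disc] using hζD)
    · replace hS : ‖b ((ζ + a) / (1 + conj a * ζ))‖ ≤ ‖ζ‖ := hS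
      rw [hback] at hS
      have h1 : ‖ζ‖ = ‖w - a‖ / ‖1 - conj a * w‖ := by
        rw [hζ, norm_div, map_neg, neg_mul, ← sub_eq_add_neg, ← sub_eq_add_neg]
      rw [h1] at hS
      have hpos : 0 < ‖1 - conj a * w‖ := norm_pos_iff.2 (hden' ha hw)
      have hpos2 : 0 < ‖w - a‖ := norm_pos_iff.2 (sub_ne_zero.2 hwa)
      rw [dslope_of_ne _ hwa, slope_def_field, hba, sub_zero, norm_mul, norm_div]
      rw [le_div_iff₀ hpos] at hS
      rw [div_mul_eq_mul_div, div_le_one hpos2]
      exact hS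
    · refine hb.comp ?_ fun ζ hζ => hauto ha hζ
      exact DifferentiableOn.div (by fun_prop) (by fun_prop) fun ζ hζ => hden ha hζ
    · intro ζ hζ
      rw [mem_closedBall_zero_iff]
      exact hb1 _ (hauto ha hζ)
    · simp [hba]
  by_cases hwa : w = a
  · subst hwa
    have hnhds : Disc ∈ 𝓝 w := Metric.isOpen_ball.mem_nhds ha
    have hcont : ContinuousAt (fun x => ‖dslope b w x * (1 - conj w * x)‖) w := by
      have h1 : ContinuousAt (dslope b w) w :=
        continuousAt_dslope_same.2 (hb.differentiableAt hnhds)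
      exact (h1.mul (by fun_prop)).norm
    have h1 : Tendsto (fun x => ‖dslope b w x * (1 - conj w * x)‖) (𝓝[≠] w)
        (𝓝 ‖dslope b w w * (1 - conj w * w)‖) := hcont.tendsto.mono_left nhdsWithin_le_nhds
    refine le_of_tendsto h1 ?_
    filter_upwards [self_mem_nhdsWithin, nhdsWithin_le_nhds hnhds] with x hx1 hx2
    exact hne x hx2 hx1
  · exact hne w hw hwa

lemma blaschke_finite (F : Finset ℂ) : ∀ b : ℂ → ℂ, DifferentiableOn ℂ b Disc →
    (∀ w ∈ Disc, ‖b w‖ ≤ 1) → (∀ w ∈ F, w ∈ Disc ∧ b w = 0) → ‖b 0‖ ≤ ∏ w ∈ F, ‖w‖ := by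
  classical
  induction F using Finset.induction_on with
  | empty =>
    intro b _ hb1 _
    simpa using hb1 0 (by simp [Disc])
  | insert a F ha ih =>
    intro b hb hb1 hF
    have haD := (hF a (Finset.mem_insert_self _ _)).1
    have hba := (hF a (Finset.mem_insert_self _ _)).2
    rw [Finset.prod_insert ha]
    by_cases ha0 : a = 0
    · subst ha0
      rw [hba]; simp
    · have hnhds : Disc ∈ 𝓝 a := Metric.isOpen_ball.mem_nhds haD
      have h1 := ih (fun w => dslope b a w * (1 - conj a * w)) ?_ ?_ ?_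
      · have e1 : dslope b a 0 = b 0 / (-a) := by
          rw [dslope_of_ne _ (Ne.symm ha0), slope_def_field, hba]
          simp
        simp only [mul_zero, sub_zero, mul_one] at h1
        rw [e1, norm_div, norm_neg, div_le_iff₀ (norm_pos_iff.2 ha0)] at h1
        linarith
      · exact ((differentiableOn_dslope hnhds).2 hb).mul (by fun_prop)
      · exact fun w hw => norm_dslope_mul_le hb hb1 haD hba hw
      · intro w hw
        have h2 := hF w (Finset.mem_insert_of_mem hw)
        refine ⟨h2.1, ?_⟩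
        have hwa : w ≠ a := by rintro rfl; exact ha hw
        show dslope b a w * (1 - conj a * w) = 0
        rw [dslope_of_ne _ hwa, slope_def_field, hba, h2.2]
        simp

/-- the zero set in the disc -/
def ZZ : Set ℂ := {w | w ∈ Disc ∧ Dd (zmap w) = 0}

lemma sum_ZZ_le (F : Finset ZZ) : ∑ w ∈ F, (1 - ‖(w : ℂ)‖) ≤ -Real.log ‖bb 0‖ := by
  classical
  have h1 := blaschke_finite (F.map ⟨fun w : ZZ => (w : ℂ), Subtype.val_injective⟩) bb diff_bb
    (fun w hw => norm_bb_le hw) ?_
  · rw [Finset.prod_map] at h1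
    have hpos : ∀ w ∈ F, 0 < ‖(w : ℂ)‖ := by
      intro w _
      rw [norm_pos_iff]
      intro h
      have h2 := w.2.2
      apply bb_zero_ne
      unfold bb
      rw [h] at h2
      rw [h2, zero_div]
    have h2 : Real.log ‖bb 0‖ ≤ Real.log (∏ w ∈ F, ‖(w : ℂ)‖) :=
      Real.log_le_log (norm_pos_iff.2 bb_zero_ne) h1
    rw [Real.log_prod (fun w hw => (hpos w hw).ne')] at h2
    have h3 : ∑ w ∈ F, Real.log ‖(w : ℂ)‖ ≤ ∑ w ∈ F, (‖(w : ℂ)‖ - 1) :=
      Finset.sum_le_sum fun w hw => Real.log_le_sub_one_of_pos (hpos w hw)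
    have h4 : ∑ w ∈ F, (1 - ‖(w : ℂ)‖) = -∑ w ∈ F, (‖(w : ℂ)‖ - 1) := by
      rw [← Finset.sum_neg_distrib]
      exact Finset.sum_congr rfl fun w _ => by ring
    rw [h4]
    linarith
  · intro w hw
    rw [Finset.mem_map] at hw
    obtain ⟨v, _, rfl⟩ := hw
    refine ⟨v.2.1, ?_⟩
    unfold bb
    have h2 : Dd (zmap ((⟨fun w : ZZ => (w : ℂ), Subtype.val_injective⟩ : ZZ ↪ ℂ) v)) = 0 := v.2.2
    rw [h2, zero_div]

lemma summable_ZZ : Summable fun w : ZZ => 1 - ‖(w : ℂ)‖ := by
  refine summable_of_sum_le (fun w => ?_) sum_ZZ_le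
  have : ‖(w : ℂ)‖ < 1 := by simpa [Disc] using w.2.1
  show (0 : ℝ) ≤ 1 - ‖(w : ℂ)‖
  linarith

lemma countable_ZZ : Countable ZZ := by
  have h := summable_ZZ.countable_support
  have h1 : Function.support (fun w : ZZ => 1 - ‖(w : ℂ)‖) = Set.univ := by
    ext w
    simp only [Function.mem_support, Set.mem_univ, iff_true]
    have : ‖(w : ℂ)‖ < 1 := by simpa [Disc] using w.2.1
    linarith
  rw [h1] at h
  exact Set.countable_univ_iff.1 h


/-! ### there are infinitely many zeros -/

/-- `e^{4y}/4 - (y-1)^2`, the square of the abscissa of the level curve at height `y` -/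
def RR (y : ℝ) : ℝ := Real.exp (4 * y) / 4 - (y - 1) ^ 2

def XX (y : ℝ) : ℝ := Real.sqrt (RR y)

def pt (y : ℝ) : ℂ := (XX y : ℂ) + (y - 1 : ℝ) * I

def hh (y : ℝ) : ℝ := arg (pt y) + 2 * XX y

lemma RR_lower {y : ℝ} (hy : 1 ≤ y) : y ^ 2 ≤ RR y := by
  unfold RR
  have h1 : 1 + 4 * y + (4 * y) ^ 2 / 2 ≤ Real.exp (4 * y) :=
    Real.quadratic_le_exp_of_nonneg (by linarith)
  nlinarith

lemma XX_lower {y : ℝ} (hy : 1 ≤ y) : y ≤ XX y := by
  unfold XX
  exact Real.le_sqrt_of_sq_le (RR_lower hy)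

lemma continuous_XX : Continuous XX := by
  unfold XX RR
  fun_prop

lemma norm_pt {y : ℝ} (hy : 1 ≤ y) : ‖pt y‖ = Real.exp (2 * y) / 2 := by
  have h0 : 0 ≤ RR y := le_trans (by positivity) (RR_lower hy)
  have h1 : ‖pt y‖ ^ 2 = (Real.exp (2 * y) / 2) ^ 2 := by
    rw [← normSq_eq_norm_sq, normSq_apply]
    unfold pt
    simp only [add_re, ofReal_re, mul_re, I_re, mul_zero, ofReal_im, I_im, mul_one, sub_self,
      add_zero, add_im, mul_im, zero_add]
    have h2 : XX y * XX y = RR y := Real.mul_self_sqrt h0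
    rw [h2]
    unfold RR
    have h3 : Real.exp (4 * y) = Real.exp (2 * y) ^ 2 := by
      rw [← Real.exp_nat_mul]; congr 1; push_cast; ring
    rw [h3]
    ring
  exact (sq_eq_sq₀ (norm_nonneg _) (by positivity)).1 h1

lemma continuousOn_hh : ContinuousOn hh (Ici 1) := by
  unfold hh
  refine ContinuousOn.add ?_ (continuous_const.mul continuous_XX).continuousOn
  intro y hy
  have hcont : Continuous pt := by
    unfold pt
    have := continuous_XX
    fun_prop
  refine ContinuousAt.continuousWithinAt ?_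
  refine (continuousAt_arg ?_).comp hcont.continuousAt
  left
  have h1 : (pt y).re = XX y := by unfold pt; simp
  rw [h1]
  have := XX_lower hy
  have : (1 : ℝ) ≤ y := hy
  linarith

lemma hh_lower {y : ℝ} (hy : 1 ≤ y) : 2 * y ≤ hh y := by
  unfold hh
  have h1 : 0 ≤ arg (pt y) := by
    rw [arg_nonneg_iff]
    unfold pt
    simp
    linarith
  have h2 := XX_lower hy
  linarith

lemma exists_level {c : ℝ} (hc : hh 1 ≤ c) : ∃ y : ℝ, 1 ≤ y ∧ hh y = c := by
  set y1 := max 1 (c / 2) with hy1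
  have h1 : 1 ≤ y1 := le_max_left _ _
  have h2 : c ≤ hh y1 := by
    have h3 := hh_lower h1
    have h4 : c / 2 ≤ y1 := le_max_right _ _
    linarith
  have hcont : ContinuousOn hh (Icc 1 y1) := continuousOn_hh.mono Icc_subset_Ici_self
  obtain ⟨y, hy, hyc⟩ := intermediate_value_Icc h1 hcont ⟨hc, h2⟩
  exact ⟨y, hy.1, hyc⟩

lemma Dd_zero {y : ℝ} (hy : 1 ≤ y) {k : ℕ} (hk : hh y = 2 * Real.pi * k) :
    Dd ((XX y : ℂ) + y * I) = 0 := by
  have h1 : ((XX y : ℂ) + y * I) - I = pt y := by unfold pt; push_cast; ring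
  have h2 : pt y = ((Real.exp (2 * y) / 2 : ℝ) : ℂ) * exp (arg (pt y) * I) := by
    rw [← norm_pt hy]
    exact (norm_mul_exp_arg_mul_I (pt y)).symm
  unfold Dd
  rw [h1, h2]
  have h3 : exp (2 * I * ((XX y : ℂ) + y * I)) = exp (2 * XX y * I) * ((Real.exp (-2 * y) : ℝ) : ℂ) := by
    rw [ofReal_exp, ← exp_add]
    congr 1
    push_cast
    linear_combination 2 * y * I_mul_I
  rw [h3]
  have h4 : exp (arg (pt y) * I) * exp (2 * XX y * I) = 1 := by
    rw [← exp_add]
    have : (arg (pt y) * I + 2 * XX y * I : ℂ) = k * (2 * Real.pi * I) := by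
      have h5 : ((hh y : ℝ) : ℂ) = arg (pt y) + 2 * XX y := by unfold hh; push_cast; ring
      rw [hk] at h5
      push_cast at h5
      linear_combination -I * h5
    rw [this, exp_nat_mul_two_pi_mul_I]
  have h5 : Real.exp (2 * y) * Real.exp (-2 * y) = 1 := by
    rw [← Real.exp_add]; simp
  have h6 : ((Real.exp (2 * y) : ℝ) : ℂ) * ((Real.exp (-2 * y) : ℝ) : ℂ) = 1 := by
    rw [← ofReal_mul, h5, ofReal_one]
  push_cast at h6 ⊢
  linear_combination (1 / 2 : ℂ) * (exp (2 * y) * exp (-2 * y)) * h4 + (1 / 2 : ℂ) * h6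

lemma infinite_ZZ : Set.Infinite ZZ := by
  obtain ⟨k0, hk0⟩ := exists_nat_ge (hh 1)
  have hex : ∀ n : ℕ, ∃ y : ℝ, 1 ≤ y ∧ hh y = 2 * Real.pi * ((n + k0 : ℕ) : ℝ) := by
    intro n
    apply exists_level
    have h1 : (3 : ℝ) < Real.pi := Real.pi_gt_three
    push_cast
    have h2 : (0 : ℝ) ≤ n := Nat.cast_nonneg n
    have h3 : (0 : ℝ) ≤ k0 := Nat.cast_nonneg k0
    nlinarith
  choose y hy1 hy2 using hex
  refine Set.infinite_of_injective_forall_mem (f := fun n => cay ((XX (y n) : ℂ) + y n * I)) ?_ ?_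
  · intro m n hmn
    have hmem : ∀ n, ((XX (y n) : ℂ) + y n * I) ∈ HP := fun n => line_mem (by linarith [hy1 n])
    have h1 := congrArg zmap hmn
    simp only at h1
    rw [zmap_cay (hmem m), zmap_cay (hmem n)] at h1
    have h2 := congrArg Complex.im h1
    simp at h2
    have h3 := hy2 m
    rw [h2, hy2 n] at h3
    have h4 := Real.pi_pos
    have h5 : ((n + k0 : ℕ) : ℝ) = ((m + k0 : ℕ) : ℝ) := by
      have : 2 * Real.pi ≠ 0 := by positivity
      exact mul_left_cancel₀ this h3
    have h6 : n + k0 = m + k0 := by exact_mod_cast h5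
    omega
  · intro n
    have hmem : ((XX (y n) : ℂ) + y n * I) ∈ HP := line_mem (by linarith [hy1 n])
    refine ⟨cay_mem hmem, ?_⟩
    rw [zmap_cay hmem]
    exact Dd_zero (hy1 n) (hy2 n)

/-! ### size of the function at the zeros -/

lemma zero_im_lower {z : ℂ} (hz : z ∈ HP) (hD : Dd z = 0) : 1 / 8 ≤ z.im := by
  have hz' : 0 < z.im := hz
  by_contra hlt
  rw [not_le] at hlt
  have h1 : (z - I) * exp (2 * I * z) = 1 / 2 := by
    unfold Dd at hD; linear_combination hD
  have h2 : ‖z - I‖ * Real.exp (-2 * z.im) = 1 / 2 := by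
    rw [← norm_exp_two, ← norm_mul, h1]; norm_num
  have h3 : 1 - z.im ≤ ‖z - I‖ := by
    have h4 := Complex.abs_im_le_norm (z - I)
    rw [sub_im, I_im] at h4
    have := neg_le_abs (z.im - 1)
    linarith
  have h4 := Real.add_one_le_exp (-2 * z.im)
  nlinarith [norm_nonneg (z - I)]

lemma norm_sq_at_zero {w : ℂ} (hw : w ∈ ZZ) :
    ‖singularInner w‖ ^ 2 * ‖zmap w - I‖ = 1 / 2 := by
  have hD := hw.2
  have h1 : (zmap w - I) * exp (2 * I * zmap w) = 1 / 2 := by
    unfold Dd at hD; linear_combination hD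
  have h2 : singularInner w ^ 2 = exp (2 * I * zmap w) := by
    rw [singularInner_eq, ← exp_nat_mul]
    congr 1
    push_cast
    ring
  rw [← norm_pow, h2, mul_comm, ← norm_mul, h1]
  norm_num

lemma zmap_large {w : ℂ} (hw : w ∈ ZZ) : 1 / 4 ≤ (1 - ‖w‖) * ‖zmap w + I‖ ^ 2 := by
  have hz := zmap_mem hw.1
  have h1 := zero_im_lower hz hw.2
  have h0 := one_sub_ne_zero hw.1
  have hw1 : ‖w‖ < 1 := by simpa [Disc] using hw.1
  have h2 : zmap w + I = 2 * I / (1 - w) := by
    unfold zmap; field_simp; ring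
  have h3 : ‖zmap w + I‖ ^ 2 = 4 / ‖1 - w‖ ^ 2 := by
    rw [h2, norm_div, norm_mul, norm_I, div_pow]
    norm_num
  rw [zmap_im hw.1] at h1
  have hpos : 0 < ‖1 - w‖ ^ 2 := by
    have := norm_pos_iff.2 h0
    positivity
  rw [le_div_iff₀ hpos] at h1
  rw [h3, mul_div_assoc', le_div_iff₀ hpos]
  have h4 := norm_nonneg w
  nlinarith

/-! ### the counterexample -/

lemma norm_singularInner_le {w : ℂ} (hw : w ∈ Disc) : ‖singularInner w‖ ≤ 1 := by
  rw [singularInner_eq, norm_exp_one, Real.exp_le_one_iff]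
  have : 0 < (zmap w).im := zmap_mem hw
  linarith

lemma diff_singularInner : DifferentiableOn ℂ singularInner Disc := by
  have h : singularInner = fun w => exp (I * zmap w) := funext singularInner_eq
  rw [h]
  exact (diff_zmap.const_mul I).cexp

lemma isHInf_singularInner : IsHInf singularInner :=
  ⟨diff_singularInner, 1, fun _ hw => norm_singularInner_le hw⟩

/-- uniqueness on the disc -/
lemma unique_on_disc {h : ℂ → ℂ} (hd : DifferentiableOn ℂ h Disc) (hb : ∀ w ∈ Disc, ‖h w‖ ≤ 1)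
    (hi : ∀ w ∈ ZZ, h w = singularInner w) : EqOn h singularInner Disc := by
  intro w hw
  have hcomp : Competitor (fun z => h (cay z)) := by
    refine ⟨?_, ?_, ?_⟩
    · refine hd.comp ?_ fun z hz => cay_mem hz
      unfold cay
      exact DifferentiableOn.div (by fun_prop) (by fun_prop) fun z hz =>
        add_I_ne_zero (le_of_lt (show 0 < z.im from hz))
    · exact fun z hz => hb _ (cay_mem hz)
    · intro z hz hD
      have h1 : cay z ∈ ZZ := ⟨cay_mem hz, by rw [zmap_cay hz]; exact hD⟩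
      rw [hi _ h1, singularInner_eq, zmap_cay hz]
  have h1 : h (cay (zmap w)) = exp (I * zmap w) := hcomp.eq (zmap_mem hw)
  rw [cay_zmap hw] at h1
  rw [h1, singularInner_eq]

lemma le_supNorm {g : ℂ → ℂ} (hg : IsHInf g) {w : ℂ} (hw : w ∈ Disc) : ‖g w‖ ≤ supNorm g := by
  obtain ⟨M, hM⟩ := hg.2
  exact le_ciSup (f := fun w : Disc => ‖g w‖) ⟨M, by rintro _ ⟨v, rfl⟩; exact hM v v.2⟩ ⟨w, hw⟩

instance : Nonempty Disc := ⟨⟨0, by simp [Disc]⟩⟩

lemma supNorm_singularInner : supNorm singularInner ≤ 1 :=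
  ciSup_le fun w => norm_singularInner_le w.2

lemma supNorm_congr {g h : ℂ → ℂ} (hgh : EqOn g h Disc) : supNorm g = supNorm h := by
  unfold supNorm
  congr 1
  ext w
  rw [hgh w.2]

lemma not_blaschke : ¬ ∃ (c : ℂ) (B : ℂ → ℂ), IsBlaschkeProduct B ∧
    EqOn singularInner (fun w => c * B w) Disc := by
  rintro ⟨c, B, ⟨θ, k, s, a, ha, _, hB⟩, heq⟩
  have hne : ∀ w ∈ Disc, c * B w ≠ 0 := by
    intro w hw
    have h1 : singularInner w = c * B w := heq hw
    rw [← h1]
    exact exp_ne_zero _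
  have h0 : (0 : ℂ) ∈ Disc := by simp [Disc]
  -- no zero at the origin
  have hk : k = 0 := by
    by_contra hk
    apply hne 0 h0
    rw [hB 0 h0, zero_pow hk]
    simp
  -- no other zeros
  have hs : s = ∅ := by
    rw [Set.eq_empty_iff_forall_notMem]
    intro j hj
    apply hne (a j) (ha j hj).2
    rw [hB _ (ha j hj).2]
    have h1 : ∏' i : s, ((‖a i‖ : ℂ) / a i * ((a i - a j) / (1 - conj (a i) * a j))) = 0 := by
      apply tprod_of_exists_eq_zero
      exact ⟨⟨j, hj⟩, by simp⟩
    rw [h1]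
    simp
  subst hk
  subst hs
  have hconst : ∀ w ∈ Disc, singularInner w = singularInner 0 := by
    intro w hw
    have e1 : singularInner w = c * B w := heq hw
    have e2 : singularInner 0 = c * B 0 := heq h0
    rw [e1, e2, hB w hw, hB 0 h0]
    simp
  have hhalf : (1 / 2 : ℂ) ∈ Disc := by
    rw [Disc, mem_ball_zero_iff]; norm_num
  have h1 := hconst _ hhalf
  have e1 : singularInner (1 / 2) = exp (-3) := by
    unfold singularInner; congr 1; norm_num
  have e2 : singularInner 0 = exp (-1) := by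
    unfold singularInner; congr 1; norm_num
  rw [e1, e2] at h1
  have h2 := congrArg norm h1
  rw [norm_exp, norm_exp] at h2
  have h3 := Real.exp_injective h2
  norm_num at h3

theorem main :
    ∃ z : ℕ → ℂ, IsBlaschkeSeq z ∧ Tendsto (fun n => singularInner (z n)) atTop (𝓝 0) ∧
      IsMinimalInterpolant singularInner z singularInner ∧
      (∀ g : ℂ → ℂ, IsMinimalInterpolant singularInner z g → EqOn g singularInner Disc) ∧
      ¬ ∃ (c : ℂ) (B : ℂ → ℂ), IsBlaschkeProduct B ∧
        EqOn singularInner (fun w => c * B w) Disc := by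
  have : Countable ZZ := countable_ZZ
  have : Infinite ZZ := infinite_ZZ.to_subtype
  obtain ⟨e⟩ : Nonempty (ZZ ≃ ℕ) := nonempty_equiv_of_countable
  set z : ℕ → ℂ := fun n => (e.symm n : ℂ) with hz
  have hzZ : ∀ n, z n ∈ ZZ := fun n => (e.symm n).2
  have hsum : Summable fun n => 1 - ‖z n‖ := summable_ZZ.comp_injective e.symm.injective
  have hsurj : ∀ w ∈ ZZ, ∃ n, z n = w := fun w hw => ⟨e ⟨w, hw⟩, by simp [hz]⟩
  -- any competitor of norm at most one is the singular inner function
  have huniq : ∀ g : ℂ → ℂ, IsInterpolant singularInner z g → supNorm g ≤ 1 →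
      EqOn g singularInner Disc := by
    intro g hg hg1
    refine unique_on_disc hg.1.1 (fun w hw => (le_supNorm hg.1 hw).trans hg1) fun w hw => ?_
    obtain ⟨n, rfl⟩ := hsurj w hw
    exact hg.2 n
  have hself : IsInterpolant singularInner z singularInner := ⟨isHInf_singularInner, fun _ => rfl⟩
  refine ⟨z, ⟨?_, fun n => (hzZ n).1, hsum⟩, ?_, ⟨hself, ?_⟩, ?_, not_blaschke⟩
  · exact fun m n hmn => e.symm.injective (Subtype.val_injective hmn)
  · -- the values tend to zero
    have h1 : Tendsto (fun n => 1 - ‖z n‖) atTop (𝓝 0) := hsum.tendsto_atTop_zero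
    have hpos : ∀ n, 0 < 1 - ‖z n‖ := fun n => by
      have : ‖z n‖ < 1 := by simpa [Disc] using (hzZ n).1
      linarith
    have h2 : Tendsto (fun n => (1 - ‖z n‖)⁻¹) atTop atTop :=
      (tendsto_nhdsWithin_iff.2 ⟨h1, Filter.Eventually.of_forall hpos⟩).inv_tendsto_nhdsGT_zero
    have h3 : Tendsto (fun n => ‖zmap (z n) + I‖ ^ 2) atTop atTop := by
      refine tendsto_atTop_mono (fun n => ?_) (h2.const_mul_atTop (by norm_num : (0 : ℝ) < 1 / 4))
      have h4 := zmap_large (hzZ n)
      rw [← div_eq_mul_inv, div_le_iff₀ (hpos n)]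
      linarith
    have h4 : Tendsto (fun n => ‖zmap (z n) + I‖) atTop atTop := by
      have h5 := Real.tendsto_sqrt_atTop.comp h3
      refine h5.congr fun n => ?_
      simp only [Function.comp]
      exact Real.sqrt_sq (norm_nonneg _)
    have h5 : Tendsto (fun n => ‖zmap (z n) - I‖) atTop atTop := by
      refine tendsto_atTop_mono (fun n => ?_) (tendsto_atTop_add_const_right _ (-2) h4)
      have h6 : zmap (z n) + I = (zmap (z n) - I) + 2 * I := by ring
      have h7 : ‖zmap (z n) + I‖ ≤ ‖zmap (z n) - I‖ + 2 := by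
        rw [h6]
        refine (norm_add_le _ _).trans ?_
        rw [norm_mul, norm_I]
        norm_num
      linarith
    have h6 : Tendsto (fun n => ‖singularInner (z n)‖ ^ 2) atTop (𝓝 0) := by
      have h7 : Tendsto (fun n => (1 / 2 : ℝ) / ‖zmap (z n) - I‖) atTop (𝓝 0) :=
        h5.const_div_atTop _
      refine h7.congr fun n => ?_
      have h8 := norm_sq_at_zero (hzZ n)
      have h9 : ‖zmap (z n) - I‖ ≠ 0 := by
        intro h
        rw [h, mul_zero] at h8
        norm_num at h8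
      rw [← h8]
      field_simp
    have h7 : Tendsto (fun n => ‖singularInner (z n)‖) atTop (𝓝 0) := by
      have h8 := h6.sqrt
      rw [Real.sqrt_zero] at h8
      refine h8.congr fun n => ?_
      exact Real.sqrt_sq (norm_nonneg _)
    exact tendsto_zero_iff_norm_tendsto_zero.2 h7
  · intro h hh
    by_contra hlt
    rw [not_le] at hlt
    have h1 := huniq h hh (hlt.le.trans supNorm_singularInner)
    rw [supNorm_congr h1] at hlt
    exact lt_irrefl _ hlt
  · intro g hg
    exact huniq g hg.1 ((hg.2 _ hself).trans supNorm_singularInner)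

end

end Pool.Agent.MinimalInterpolation
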