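import Pool.Agent.MinimalInterpolation.Defs

/-!
# Uniqueness in the upper half plane

With `D(z) = (z - i) e^{2iz} - 1/2` and `K(z) = (z + i) - e^{2iz}/2`, the quotient `D/K` is inner in
the upper half plane. If `u` is analytic there with `|u| ≤ 1` and `u = e^{iz}` at all zeros of `D`,
then `u = e^{iz}`: integrate `(u - e^{iz}) e^{iz} / (K D)` along the lines `Im z = ε`. The integral
vanishes, while the real part of the integrand is close to `-|u - e^{iz}|^2 / (2 |K|^2)`.
-/

open Complex MeasureTheory Filter Topology Set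
open scoped ComplexConjugate

namespace Pool.Agent.MinimalInterpolation

noncomputable section

/-- the open upper half plane -/
abbrev HP : Set ℂ := {z : ℂ | 0 < z.im}

lemma isOpen_HP : IsOpen HP := isOpen_lt continuous_const Complex.continuous_im

/-- numerator of the inner function -/
def Dd (z : ℂ) : ℂ := (z - I) * exp (2 * I * z) - 1 / 2
/-- denominator of the inner function -/
def Kk (z : ℂ) : ℂ := (z + I) - 1 / 2 * exp (2 * I * z)

lemma norm_exp_two (z : ℂ) : ‖exp (2 * I * z)‖ = Real.exp (-2 * z.im) := by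
  rw [Complex.norm_exp]
  congr 1
  simp

lemma norm_exp_one (z : ℂ) : ‖exp (I * z)‖ = Real.exp (-z.im) := by
  rw [Complex.norm_exp]
  congr 1
  simp

lemma one_le_norm_add_I {z : ℂ} (hz : 0 ≤ z.im) : 1 ≤ ‖z + I‖ := by
  have h := Complex.abs_im_le_norm (z + I)
  simp only [add_im, I_im] at h
  have := le_abs_self (z.im + 1)
  linarith

lemma Kk_lower {z : ℂ} (hz : 0 ≤ z.im) : ‖z + I‖ / 2 ≤ ‖Kk z‖ := by
  have h1 := one_le_norm_add_I hz
  have h2 : ‖(1 / 2 : ℂ) * exp (2 * I * z)‖ ≤ 1 / 2 := by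
    rw [norm_mul, norm_exp_two]
    have : Real.exp (-2 * z.im) ≤ 1 := Real.exp_le_one_iff.2 (by linarith)
    have h3 : ‖(1 / 2 : ℂ)‖ = 1 / 2 := by norm_num
    rw [h3]
    linarith
  have h3 : ‖z + I‖ - ‖(1 / 2 : ℂ) * exp (2 * I * z)‖ ≤ ‖Kk z‖ := norm_sub_norm_le _ _
  linarith

lemma Kk_upper {z : ℂ} (hz : 0 ≤ z.im) : ‖Kk z‖ ≤ 3 / 2 * ‖z + I‖ := by
  have h1 := one_le_norm_add_I hz
  have h2 : ‖(1 / 2 : ℂ) * exp (2 * I * z)‖ ≤ 1 / 2 := by
    rw [norm_mul, norm_exp_two]
    have : Real.exp (-2 * z.im) ≤ 1 := Real.exp_le_one_iff.2 (by linarith)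
    have h3 : ‖(1 / 2 : ℂ)‖ = 1 / 2 := by norm_num
    rw [h3]
    linarith
  have h3 : ‖Kk z‖ ≤ ‖z + I‖ + ‖(1 / 2 : ℂ) * exp (2 * I * z)‖ := norm_sub_le _ _
  linarith

lemma Kk_ne_zero {z : ℂ} (hz : 0 ≤ z.im) : Kk z ≠ 0 := by
  have h1 := one_le_norm_add_I hz
  have h2 := Kk_lower hz
  intro h
  rw [h, norm_zero] at h2
  linarith

lemma differentiable_Dd : Differentiable ℂ Dd := by
  unfold Dd; fun_prop

lemma differentiable_Kk : Differentiable ℂ Kk := by
  unfold Kk; fun_prop

lemma hasDerivAt_Dd (z : ℂ) : HasDerivAt Dd (exp (2 * I * z) * (3 + 2 * I * z)) z := by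
  have h1 : HasDerivAt (fun z : ℂ => exp (2 * I * z)) (exp (2 * I * z) * (2 * I)) z := by
    have := ((hasDerivAt_id z).const_mul (2 * I)).cexp
    simpa using this
  have h2 := (((hasDerivAt_id z).sub_const I).mul h1).sub_const (1 / 2)
  refine h2.congr_deriv ?_
  simp only [id]
  ring_nf
  rw [I_sq]
  ring

/-- all zeros of `Dd` are simple -/
lemma deriv_Dd_ne_zero {z : ℂ} (hz : Dd z = 0) : deriv Dd z ≠ 0 := by
  rw [(hasDerivAt_Dd z).deriv]
  refine mul_ne_zero (exp_ne_zero _) ?_
  intro h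
  have hz3 : z = 3 / 2 * I := by
    have h1 : I * (3 + 2 * I * z) = 0 := by rw [h, mul_zero]
    have h2 : I * (3 + 2 * I * z) = 3 * I + 2 * (I * I) * z := by ring
    rw [h2, I_mul_I] at h1
    linear_combination (-1 / 2) * h1
  rw [hz3] at hz
  unfold Dd at hz
  have h4 : (2 * I * (3 / 2 * I) : ℂ) = ((-3 : ℝ) : ℂ) := by
    push_cast
    linear_combination 3 * I_mul_I
  rw [h4, ← ofReal_exp] at hz
  have h5 := congrArg Complex.re hz
  simp only [sub_re, mul_re, ofReal_re, ofReal_im, I_re, I_im, zero_re] at h5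
  norm_num at h5

/-! ### near the real line -/

lemma D_approx (x ε : ℝ) : Dd (x + ε * I) - exp (-2 * ε) * exp (2 * I * x) * conj (Kk (x + ε * I))
    = exp (2 * I * (x + ε * I)) * (2 * ε * I) - 1 / 2 * (1 - exp (-4 * ε)) := by
  have e1 : exp (2 * I * (x + ε * I)) = exp (-2 * ε) * exp (2 * I * x) := by
    rw [← exp_add]; congr 1; linear_combination 2 * ε * I_mul_I
  have e2 : conj (Kk (x + ε * I)) = (x - ε * I - I) - 1 / 2 * exp (-2 * ε - 2 * I * x) := by
    unfold Kk
    rw [map_sub, map_mul, ← exp_conj]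
    simp only [map_add, map_mul, conj_ofReal, conj_I, map_ofNat, map_one, map_div₀]
    congr 1
    · ring
    · congr 2; linear_combination 2 * ε * I_mul_I
  have e3 : exp (-2 * ε) * exp (2 * I * x) * exp (-2 * ε - 2 * I * x) = exp (-4 * ε) := by
    rw [← exp_add, ← exp_add]; congr 1; ring
  rw [e2]
  unfold Dd
  rw [e1]
  linear_combination (1 / 2 : ℂ) * e3

lemma D_approx_norm {x ε : ℝ} (hε : 0 < ε) :
    ‖Dd (x + ε * I) - exp (-2 * ε) * exp (2 * I * x) * conj (Kk (x + ε * I))‖ ≤ 4 * ε := by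
  rw [D_approx]
  refine (norm_sub_le _ _).trans ?_
  have h1 : ‖exp (2 * I * (x + ε * I)) * (2 * ε * I)‖ ≤ 2 * ε := by
    rw [norm_mul, norm_exp_two]
    have h2 : ‖(2 * ε * I : ℂ)‖ = 2 * ε := by
      simp [abs_of_pos hε]
    rw [h2]
    have h3 : Real.exp (-2 * (x + ε * I : ℂ).im) ≤ 1 := by
      rw [Real.exp_le_one_iff]; simp; linarith
    nlinarith
  have h2 : ‖(1 / 2 : ℂ) * (1 - exp (-4 * ε))‖ ≤ 2 * ε := by
    have h3 : (1 / 2 : ℂ) * (1 - exp (-4 * ε)) = ((1 / 2 * (1 - Real.exp (-4 * ε)) : ℝ) : ℂ) := by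
      push_cast; rfl
    rw [h3, Complex.norm_real, Real.norm_eq_abs]
    have h4 : Real.exp (-4 * ε) ≤ 1 := Real.exp_le_one_iff.2 (by linarith)
    have h5 := Real.add_one_le_exp (-4 * ε)
    rw [abs_of_nonneg (by linarith)]
    linarith
  linarith


/-! ### removing the singularities of a quotient -/

lemma div_removable {v D : ℂ → ℂ} {S : Set ℂ} (hS : IsOpen S) (hv : DifferentiableOn ℂ v S)
    (hD : DifferentiableOn ℂ D S) (hzero : ∀ z ∈ S, D z = 0 → v z = 0)
    (hsimple : ∀ z ∈ S, D z = 0 → deriv D z ≠ 0) :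
    DifferentiableOn ℂ (fun z => if D z = 0 then deriv v z / deriv D z else v z / D z) S := by
  intro z₀ hz₀
  have hS' : S ∈ 𝓝 z₀ := hS.mem_nhds hz₀
  apply DifferentiableAt.differentiableWithinAt
  by_cases h : D z₀ = 0
  · have hv0 := hzero z₀ hz₀ h
    have hd0 := hsimple z₀ hz₀ h
    have h1 : DifferentiableAt ℂ (dslope v z₀) z₀ :=
      ((differentiableOn_dslope hS').2 hv).differentiableAt hS'
    have h2 : DifferentiableAt ℂ (dslope D z₀) z₀ :=
      ((differentiableOn_dslope hS').2 hD).differentiableAt hS'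
    have h3 : dslope D z₀ z₀ ≠ 0 := by rw [dslope_same]; exact hd0
    have h4 : ∀ᶠ z in 𝓝 z₀, dslope D z₀ z ≠ 0 := h2.continuousAt.eventually_ne h3
    refine (h1.div h2 h3).congr_of_eventuallyEq ?_
    filter_upwards [h4] with z hz
    by_cases hzz : z = z₀
    · subst hzz
      rw [if_pos h, Pi.div_apply, dslope_same, dslope_same]
    · have e1 : D z = (z - z₀) * dslope D z₀ z := by
        have := sub_smul_dslope D z₀ z
        rw [h, sub_zero, smul_eq_mul] at this
        exact this.symm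
      have e2 : v z = (z - z₀) * dslope v z₀ z := by
        have := sub_smul_dslope v z₀ z
        rw [hv0, sub_zero, smul_eq_mul] at this
        exact this.symm
      have hne : z - z₀ ≠ 0 := sub_ne_zero.2 hzz
      have hDz : D z ≠ 0 := by rw [e1]; exact mul_ne_zero hne hz
      rw [if_neg hDz, Pi.div_apply, e1, e2]
      field_simp
  · have h1 : DifferentiableAt ℂ v z₀ := hv.differentiableAt hS'
    have h2 : DifferentiableAt ℂ D z₀ := hD.differentiableAt hS'
    have h4 : ∀ᶠ z in 𝓝 z₀, D z ≠ 0 := h2.continuousAt.eventually_ne h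
    refine (h1.div h2 h).congr_of_eventuallyEq ?_
    filter_upwards [h4] with z hz
    rw [if_neg hz, Pi.div_apply]

/-- Bound for one side of a rectangle by the other three. -/
lemma rect_bottom_le {f : ℂ → ℂ} (hf : DifferentiableOn ℂ f HP) {ε Y a b : ℝ} (hε : 0 < ε)
    (hY : ε ≤ Y) : ‖∫ x in a..b, f (x + ε * I)‖ ≤
      ‖∫ x in a..b, f (x + Y * I)‖ + ‖∫ y in ε..Y, f (b + y * I)‖ +
        ‖∫ y in ε..Y, f (a + y * I)‖ := by
  have h := Complex.integral_boundary_rect_eq_zero_of_differentiableOn f (a + ε * I) (b + Y * I) ?_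
  · simp only [add_re, ofReal_re, mul_re, I_re, mul_zero, ofReal_im, I_im, mul_one, sub_self,
      add_zero, add_im, mul_im, zero_add] at h
    have h2 : ∫ x in a..b, f (x + ε * I) = (∫ x in a..b, f (x + Y * I)) -
        I • (∫ y in ε..Y, f (b + y * I)) + I • (∫ y in ε..Y, f (a + y * I)) := by
      linear_combination h
    rw [h2]
    refine (norm_add_le _ _).trans ?_
    refine add_le_add ((norm_sub_le _ _).trans ?_) ?_
    · rw [norm_smul, norm_I, one_mul]
    · rw [norm_smul, norm_I, one_mul]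
  · refine hf.mono ?_
    rintro z ⟨_, hz⟩
    simp only [add_im, ofReal_im, mul_im, ofReal_re, I_im, mul_one, I_re, mul_zero, add_zero,
      zero_add] at hz
    rw [uIcc_of_le hY] at hz
    exact lt_of_lt_of_le hε hz.1

/-! ### the test function -/

/-- the difference of a competitor and `exp (i z)` -/
def vv (u : ℂ → ℂ) (z : ℂ) : ℂ := u z - exp (I * z)

def Phi (u : ℂ → ℂ) (z : ℂ) : ℂ :=
  (if Dd z = 0 then deriv (vv u) z / deriv Dd z else vv u z / Dd z) * (exp (I * z) / Kk z)

structure Competitor (u : ℂ → ℂ) : Prop where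
  diff : DifferentiableOn ℂ u HP
  bound : ∀ z ∈ HP, ‖u z‖ ≤ 1
  interp : ∀ z ∈ HP, Dd z = 0 → u z = exp (I * z)

variable {u : ℂ → ℂ}

lemma Competitor.diff_vv (hu : Competitor u) : DifferentiableOn ℂ (vv u) HP := by
  unfold vv
  exact hu.diff.sub (by fun_prop)

lemma Competitor.diff_Phi (hu : Competitor u) : DifferentiableOn ℂ (Phi u) HP := by
  unfold Phi
  refine (div_removable isOpen_HP hu.diff_vv differentiable_Dd.differentiableOn ?_ ?_).mul ?_
  · intro z hz h
    unfold vv
    rw [hu.interp z hz h, sub_self]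
  · intro z _ h
    exact deriv_Dd_ne_zero h
  · refine DifferentiableOn.div (by fun_prop) differentiable_Kk.differentiableOn ?_
    intro z hz
    exact Kk_ne_zero (le_of_lt hz)

lemma Competitor.norm_vv_le (hu : Competitor u) {z : ℂ} (hz : z ∈ HP) : ‖vv u z‖ ≤ 2 := by
  unfold vv
  refine (norm_sub_le _ _).trans ?_
  have h1 := hu.bound z hz
  have h2 : ‖exp (I * z)‖ ≤ 1 := by
    rw [norm_exp_one, Real.exp_le_one_iff]
    have : 0 < z.im := hz
    linarith
  linarith

/-- bound for the test function away from the zeros of `Dd` -/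
lemma Competitor.norm_Phi_le (hu : Competitor u) {z : ℂ} (hz : z ∈ HP) {c : ℝ} (hc : 0 < c)
    (hD : c ≤ ‖Dd z‖) : ‖Phi u z‖ ≤ 4 * Real.exp (-z.im) / (c * ‖z + I‖) := by
  have hz' : 0 < z.im := hz
  have hD0 : Dd z ≠ 0 := by
    intro h; rw [h, norm_zero] at hD; linarith
  unfold Phi
  rw [if_neg hD0, norm_mul, norm_div, norm_div, norm_exp_one]
  have h1 := hu.norm_vv_le hz
  have h2 := Kk_lower hz'.le
  have h3 := one_le_norm_add_I hz'.le
  have h4 : ‖vv u z‖ / ‖Dd z‖ ≤ 2 / c := by gcongr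
  have h5 : Real.exp (-z.im) / ‖Kk z‖ ≤ Real.exp (-z.im) / (‖z + I‖ / 2) := by
    gcongr
  calc ‖vv u z‖ / ‖Dd z‖ * (Real.exp (-z.im) / ‖Kk z‖)
      ≤ 2 / c * (Real.exp (-z.im) / (‖z + I‖ / 2)) := by gcongr
    _ = 4 * Real.exp (-z.im) / (c * ‖z + I‖) := by field_simp; ring

/-- The main pointwise inequality near the real axis. -/
lemma Competitor.key (hu : Competitor u) {x ε : ℝ} (hε : 0 < ε) (hε1 : ε ≤ 1 / 16) :
    ‖vv u (x + ε * I)‖ ^ 2 / ‖Kk (x + ε * I)‖ ^ 2 ≤
      -2 * (Phi u (x + ε * I)).re + 104 * ε / ‖Kk (x + ε * I)‖ ^ 2 := by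
  set z : ℂ := x + ε * I with hz
  have hzim : z.im = ε := by simp [hz]
  have hzHP : z ∈ HP := by show 0 < z.im; rw [hzim]; exact hε
  set K := Kk z with hK
  set D := Dd z with hD
  set v := vv u z with hv
  set g := exp (I * z) with hg
  set T := exp (-2 * ε) * exp (2 * I * x) * conj K with hT
  have hKlow : 1 / 2 ≤ ‖K‖ := by
    have h1 := Kk_lower (z := z) (by rw [hzim]; exact hε.le)
    have h2 := one_le_norm_add_I (z := z) (by rw [hzim]; exact hε.le)
    linarith
  have hKpos : 0 < ‖K‖ := by linarith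
  have hDT : ‖D - T‖ ≤ 4 * ε := D_approx_norm hε
  have hnT : ‖T‖ = Real.exp (-2 * ε) * ‖K‖ := by
    rw [hT, norm_mul, norm_mul, RCLike.norm_conj]
    have e1 : ‖exp (-2 * (ε : ℂ))‖ = Real.exp (-2 * ε) := by
      rw [Complex.norm_exp]; congr 1; simp
    have e2 : ‖exp (2 * I * (x : ℂ))‖ = 1 := by
      rw [norm_exp_two]; simp
    rw [e1, e2, mul_one]
  have hexp : 7 / 8 ≤ Real.exp (-2 * ε) := by
    have := Real.add_one_le_exp (-2 * ε)
    linarith
  have hTlow : 7 / 8 * ‖K‖ ≤ ‖T‖ := by rw [hnT]; gcongr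
  have hDlow : 3 / 16 ≤ ‖D‖ := by
    have h1 : ‖T‖ - ‖T - D‖ ≤ ‖D‖ := by
      have := norm_sub_norm_le T (T - D)
      rwa [sub_sub_cancel] at this
    rw [norm_sub_rev] at h1
    linarith
  have hD0 : D ≠ 0 := by intro h; rw [h, norm_zero] at hDlow; linarith
  have hT0 : T ≠ 0 := by
    intro h; rw [h, norm_zero] at hTlow; nlinarith
  have hK0 : K ≠ 0 := norm_pos_iff.1 hKpos
  have hPhi : Phi u z = v / D * (g / K) := by
    unfold Phi; rw [if_neg hD0]
  -- comparison of `Phi` with the model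
  have hdiff : ‖v / D * (g / K) - v / T * (g / K)‖ ≤ 50 * ε / ‖K‖ ^ 2 := by
    have e1 : v / D * (g / K) - v / T * (g / K) = v * g * (T - D) / (D * T * K) := by
      field_simp
    rw [e1, norm_div, norm_mul, norm_mul, norm_mul, norm_mul, norm_sub_rev]
    have hvn : ‖v‖ ≤ 2 := hu.norm_vv_le hzHP
    have hgn : ‖g‖ ≤ 1 := by
      rw [hg, norm_exp_one, Real.exp_le_one_iff, hzim]; linarith
    have hnum : ‖v‖ * ‖g‖ * ‖D - T‖ ≤ 2 * 1 * (4 * ε) := by gcongr
    have hden : 3 / 16 * (7 / 8 * ‖K‖) * ‖K‖ ≤ ‖D‖ * ‖T‖ * ‖K‖ := by gcongr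
    calc ‖v‖ * ‖g‖ * ‖D - T‖ / (‖D‖ * ‖T‖ * ‖K‖)
        ≤ 2 * 1 * (4 * ε) / (3 / 16 * (7 / 8 * ‖K‖) * ‖K‖) := by gcongr
      _ = (1024 / 21) * ε / ‖K‖ ^ 2 := by field_simp; ring
      _ ≤ 50 * ε / ‖K‖ ^ 2 := by gcongr; norm_num
  have hmodel : v / T * (g / K) = ((Real.exp (2 * ε) / ‖K‖ ^ 2 : ℝ) : ℂ) * (v * conj g) := by
    have e1 : g = exp (-(ε : ℂ)) * exp (I * x) := by
      rw [hg, hz, ← exp_add]; congr 1; linear_combination ε * I_mul_I
    have e2 : conj g = exp (-(ε : ℂ)) * exp (-(I * x)) := by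
      rw [e1, map_mul, ← exp_conj, ← exp_conj]
      simp
    have e3 : g = exp (2 * ε) * exp (-2 * ε) * exp (2 * I * x) * conj g := by
      rw [e2, e1, ← exp_add, ← exp_add, ← exp_add, ← exp_add, ← exp_add]
      congr 1; ring
    have e4 : K * conj K = ((‖K‖ ^ 2 : ℝ) : ℂ) := by
      rw [mul_conj, normSq_eq_norm_sq]
    have hcK : conj K ≠ 0 := by
      rw [Ne, map_eq_zero]; exact hK0
    have e5 : (((Real.exp (2 * ε) / ‖K‖ ^ 2 : ℝ)) : ℂ) = exp (2 * ε) / (K * conj K) := by
      rw [e4]; push_cast; rfl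
    rw [e5]
    have e6 : g / T = exp (2 * ε) * conj g / conj K := by
      rw [div_eq_div_iff hT0 hcK, hT]
      conv_lhs => rw [e3]
      ring
    calc v / T * (g / K) = v * (g / T) / K := by ring
      _ = exp (2 * ε) / (K * conj K) * (v * conj g) := by rw [e6]; field_simp
  have hre1 : (v * conj g).re ≤ ε - ‖v‖ ^ 2 / 2 := by
    have e1 : u z = v + g := by simp [hv, hg, vv]
    have e2 : ‖u z‖ ^ 2 = ‖v‖ ^ 2 + ‖g‖ ^ 2 + 2 * (v * conj g).re := by
      rw [e1, ← normSq_eq_norm_sq, normSq_add, normSq_eq_norm_sq, normSq_eq_norm_sq]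
    have e3 : ‖u z‖ ^ 2 ≤ 1 := by
      have := hu.bound z hzHP
      have := norm_nonneg (u z)
      nlinarith
    have e4 : ‖g‖ ^ 2 = Real.exp (-2 * ε) := by
      rw [hg, norm_exp_one, hzim, ← Real.exp_nat_mul]
      congr 1; push_cast; ring
    have e5 := Real.add_one_le_exp (-2 * ε)
    rw [e4] at e2
    linarith
  have hE1 : 1 ≤ Real.exp (2 * ε) := Real.one_le_exp (by linarith)
  have hE2 : Real.exp (2 * ε) ≤ 2 := by
    have h1 : Real.exp (2 * ε) ≤ Real.exp (1 / 8) := Real.exp_le_exp.2 (by linarith)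
    have h2 : Real.exp (1 / 8) ≤ 1 / (1 - 1 / 8) := Real.exp_bound_div_one_sub_of_interval (by norm_num) (by norm_num)
    norm_num at h2
    linarith
  have hre2 : (v / T * (g / K)).re ≤ (2 * ε - ‖v‖ ^ 2 / 2) / ‖K‖ ^ 2 := by
    rw [hmodel, Complex.re_ofReal_mul]
    have hKsq : 0 < ‖K‖ ^ 2 := by positivity
    rw [div_mul_eq_mul_div]
    gcongr
    have : Real.exp (2 * ε) * (v * conj g).re ≤ Real.exp (2 * ε) * (ε - ‖v‖ ^ 2 / 2) := by
      gcongr
    have h3 : 0 ≤ ‖v‖ ^ 2 := by positivity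
    nlinarith
  have hre3 : (v / D * (g / K)).re ≤ (v / T * (g / K)).re + 50 * ε / ‖K‖ ^ 2 := by
    have h1 := (Complex.abs_re_le_norm (v / D * (g / K) - v / T * (g / K))).trans hdiff
    rw [sub_re] at h1
    have := le_abs_self ((v / D * (g / K)).re - (v / T * (g / K)).re)
    linarith
  rw [hPhi]
  have hKsq : 0 < ‖K‖ ^ 2 := by positivity
  have e7 : (2 * ε - ‖v‖ ^ 2 / 2) / ‖K‖ ^ 2 = 2 * ε / ‖K‖ ^ 2 - ‖v‖ ^ 2 / ‖K‖ ^ 2 / 2 := by
    ring
  rw [e7] at hre2
  have e8 : 104 * ε / ‖K‖ ^ 2 = 2 * (2 * ε / ‖K‖ ^ 2) + 2 * (50 * ε / ‖K‖ ^ 2) := by ring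
  rw [e8]
  linarith


/-! ### the rectangles -/

def Xr (m : ℕ) : ℝ := Real.pi / 2 + Real.pi * m
def Xl (m : ℕ) : ℝ := -(Real.pi * m)

lemma Xl_le_Xr (m : ℕ) : Xl m ≤ Xr m := by
  unfold Xl Xr
  have := Real.pi_pos
  have : (0 : ℝ) ≤ Real.pi * m := by positivity
  linarith

lemma Dd_right (m : ℕ) (y : ℝ) : 1 / 2 ≤ ‖Dd (Xr m + y * I)‖ := by
  have e1 : exp (2 * I * (Xr m + y * I)) = ((-Real.exp (-2 * y) : ℝ) : ℂ) := by
    have h1 : 2 * I * (Xr m + y * I) = ((-2 * y : ℝ) : ℂ) + (Real.pi * I + m * (2 * Real.pi * I)) := by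
      unfold Xr; push_cast; linear_combination 2 * y * I_mul_I
    rw [h1, exp_add, exp_add, exp_nat_mul_two_pi_mul_I, exp_pi_mul_I, ← ofReal_exp]
    push_cast; ring
  have h2 : (Dd (Xr m + y * I)).re = -(Xr m * Real.exp (-2 * y)) - 1 / 2 := by
    unfold Dd
    rw [e1]
    simp only [sub_re, mul_re, add_re, ofReal_re, ofReal_im, I_re, I_im, add_im, sub_im, mul_im]
    norm_num
  have h3 := Complex.abs_re_le_norm (Dd (Xr m + y * I))
  rw [h2] at h3
  have h4 : 0 ≤ Xr m * Real.exp (-2 * y) := by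
    unfold Xr
    have := Real.pi_pos
    positivity
  have h5 := neg_abs_le (-(Xr m * Real.exp (-2 * y)) - 1 / 2)
  linarith

lemma Dd_left (m : ℕ) (y : ℝ) : 1 / 2 ≤ ‖Dd (Xl m + y * I)‖ := by
  have e1 : exp (2 * I * (Xl m + y * I)) = ((Real.exp (-2 * y) : ℝ) : ℂ) := by
    have h1 : 2 * I * (Xl m + y * I) = ((-2 * y : ℝ) : ℂ) - (m * (2 * Real.pi * I)) := by
      unfold Xl; push_cast; linear_combination 2 * y * I_mul_I
    rw [h1, exp_sub, exp_nat_mul_two_pi_mul_I, ← ofReal_exp]
    simp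
  have h2 : (Dd (Xl m + y * I)).re = -(Real.pi * m * Real.exp (-2 * y)) - 1 / 2 := by
    unfold Dd Xl
    rw [show ((-(Real.pi * m) : ℝ) : ℂ) = ((Xl m : ℝ) : ℂ) from rfl, e1]
    simp only [sub_re, mul_re, add_re, ofReal_re, ofReal_im, I_re, I_im, add_im, sub_im, mul_im,
      Xl]
    norm_num
  have h3 := Complex.abs_re_le_norm (Dd (Xl m + y * I))
  rw [h2] at h3
  have h4 : 0 ≤ Real.pi * m * Real.exp (-2 * y) := by
    have := Real.pi_pos
    positivity
  have h5 := neg_abs_le (-(Real.pi * m * Real.exp (-2 * y)) - 1 / 2)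
  linarith

lemma Dd_top {m : ℕ} (hm : (Xr m + m + 1) * Real.exp (-2 * m) ≤ 1 / 4) {x : ℝ}
    (hx : x ∈ Icc (Xl m) (Xr m)) : 1 / 4 ≤ ‖Dd (x + (m : ℝ) * I)‖ := by
  have h1 : ‖(x + (m : ℝ) * I - I : ℂ)‖ ≤ Xr m + m + 1 := by
    have h2 : (x + (m : ℝ) * I - I : ℂ) = (x : ℂ) + (((m : ℝ) - 1 : ℝ) : ℂ) * I := by
      push_cast; ring
    rw [h2]
    refine (norm_add_le _ _).trans ?_
    rw [norm_mul, norm_I, Complex.norm_real, Complex.norm_real, Real.norm_eq_abs,
      Real.norm_eq_abs, mul_one]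
    have h3 : |x| ≤ Xr m := by
      rw [abs_le]
      refine ⟨?_, hx.2⟩
      have := hx.1
      unfold Xl at this
      unfold Xr
      have := Real.pi_pos
      linarith
    have h4 : |(m : ℝ) - 1| ≤ m + 1 := by
      rw [abs_le]
      have : (0 : ℝ) ≤ m := Nat.cast_nonneg m
      constructor <;> linarith
    linarith
  have h2 : ‖(x + (m : ℝ) * I - I : ℂ) * exp (2 * I * (x + (m : ℝ) * I))‖ ≤ 1 / 4 := by
    rw [norm_mul, norm_exp_two]
    have h3 : (x + (m : ℝ) * I : ℂ).im = m := by simp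
    rw [h3]
    refine le_trans ?_ hm
    gcongr
  have h3 : ‖(1 / 2 : ℂ)‖ - ‖(x + (m : ℝ) * I - I : ℂ) * exp (2 * I * (x + (m : ℝ) * I))‖ ≤
      ‖Dd (x + (m : ℝ) * I)‖ := by
    have := norm_sub_norm_le (1 / 2 : ℂ) ((x + (m : ℝ) * I - I : ℂ) * exp (2 * I * (x + (m : ℝ) * I)))
    rw [norm_sub_rev (1 / 2 : ℂ)] at this
    exact this
  have h4 : ‖(1 / 2 : ℂ)‖ = 1 / 2 := by norm_num
  rw [h4] at h3
  linarith

def delta (m : ℕ) : ℝ :=
  16 * Real.exp (-m) * (Xr m - Xl m) + 8 / Xr m + 8 / (Real.pi * m)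

lemma exp_neg_mul_tendsto : Tendsto (fun m : ℕ => Real.exp (-(m : ℝ)) * m) atTop (𝓝 0) := by
  have h := (Real.tendsto_pow_mul_exp_neg_atTop_nhds_zero 1).comp tendsto_natCast_atTop_atTop
  refine h.congr fun m => ?_
  simp only [Function.comp, pow_one]
  ring

lemma exp_neg_tendsto : Tendsto (fun m : ℕ => Real.exp (-(m : ℝ))) atTop (𝓝 0) :=
  Real.tendsto_exp_neg_atTop_nhds_zero.comp tendsto_natCast_atTop_atTop

lemma Xr_tendsto : Tendsto Xr atTop atTop := by
  unfold Xr
  exact tendsto_atTop_add_const_left _ _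
    (Tendsto.const_mul_atTop Real.pi_pos tendsto_natCast_atTop_atTop)

lemma pim_tendsto : Tendsto (fun m : ℕ => Real.pi * (m : ℝ)) atTop atTop :=
  Tendsto.const_mul_atTop Real.pi_pos tendsto_natCast_atTop_atTop

lemma delta_tendsto : Tendsto delta atTop (𝓝 0) := by
  have h1 : Tendsto (fun m : ℕ => 16 * Real.exp (-(m : ℝ)) * (Xr m - Xl m)) atTop (𝓝 0) := by
    have h2 := ((exp_neg_tendsto.const_mul (16 * (Real.pi / 2))).add
      (exp_neg_mul_tendsto.const_mul (32 * Real.pi)))
    simp only [mul_zero, add_zero] at h2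
    refine h2.congr fun m => ?_
    unfold Xr Xl
    ring
  have h2 : Tendsto (fun m : ℕ => 8 / Xr m) atTop (𝓝 0) := Xr_tendsto.const_div_atTop _
  have h3 : Tendsto (fun m : ℕ => 8 / (Real.pi * (m : ℝ))) atTop (𝓝 0) :=
    pim_tendsto.const_div_atTop _
  have h4 := (h1.add h2).add h3
  simp only [add_zero] at h4
  exact h4

lemma eventually_top : ∀ᶠ m : ℕ in atTop, (Xr m + m + 1) * Real.exp (-2 * m) ≤ 1 / 4 := by
  have h1 : Tendsto (fun m : ℕ => (Xr m + m + 1) * Real.exp (-2 * (m : ℝ))) atTop (𝓝 0) := by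
    have h2 := ((exp_neg_tendsto.mul exp_neg_tendsto).const_mul (Real.pi / 2 + 1)).add
      ((exp_neg_mul_tendsto.mul exp_neg_tendsto).const_mul (Real.pi + 1))
    simp only [mul_zero, add_zero] at h2
    refine h2.congr fun m => ?_
    have h3 : Real.exp (-2 * (m : ℝ)) = Real.exp (-(m : ℝ)) * Real.exp (-(m : ℝ)) := by
      rw [← Real.exp_add]; congr 1; ring
    rw [h3]
    unfold Xr
    ring
  exact h1.eventually_le_const (by norm_num)

lemma integral_exp_neg_le {ε : ℝ} {m : ℝ} (hε : 0 < ε) :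
    ∫ y in ε..m, Real.exp (-y) ≤ 1 := by
  have h : ∫ y in ε..m, Real.exp (-y) = Real.exp (-ε) - Real.exp (-m) := by
    rw [intervalIntegral.integral_comp_neg, integral_exp]
  rw [h]
  have h1 : Real.exp (-ε) ≤ 1 := Real.exp_le_one_iff.2 (by linarith)
  have h2 := Real.exp_pos (-m)
  linarith

lemma Competitor.side (hu : Competitor u) {X ε Y : ℝ} (hε : 0 < ε) (hY : ε ≤ Y)
    (hX : X ≠ 0) (hD : ∀ y : ℝ, 1 / 2 ≤ ‖Dd (X + y * I)‖) :
    ‖∫ y in ε..Y, Phi u (X + y * I)‖ ≤ 8 / |X| := by
  have hX' : 0 < |X| := abs_pos.2 hX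
  have hint : IntervalIntegrable (fun y => 8 / |X| * Real.exp (-y)) volume ε Y :=
    Continuous.intervalIntegrable (by fun_prop) _ _
  have h1 : ‖∫ y in ε..Y, Phi u (X + y * I)‖ ≤ ∫ y in ε..Y, 8 / |X| * Real.exp (-y) := by
    refine intervalIntegral.norm_integral_le_of_norm_le hY ?_ hint
    refine Filter.Eventually.of_forall fun y hy => ?_
    have hy0 : 0 < y := lt_trans hε hy.1
    have him : (X + y * I : ℂ).im = y := by simp
    have hHP : (X + y * I : ℂ) ∈ HP := by show 0 < (X + y * I : ℂ).im; rw [him]; exact hy0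
    have h2 := hu.norm_Phi_le hHP (c := 1 / 2) (by norm_num) (hD y)
    rw [him] at h2
    refine h2.trans ?_
    have h3 : |X| ≤ ‖(X + y * I + I : ℂ)‖ := by
      have := Complex.abs_re_le_norm (X + y * I + I : ℂ)
      simpa using this
    calc 4 * Real.exp (-y) / (1 / 2 * ‖(X + y * I + I : ℂ)‖)
        ≤ 4 * Real.exp (-y) / (1 / 2 * |X|) := by gcongr
      _ = 8 / |X| * Real.exp (-y) := by field_simp; ring
  refine h1.trans ?_
  rw [intervalIntegral.integral_const_mul]
  have h2 := integral_exp_neg_le (m := Y) hε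
  have h3 : 0 ≤ 8 / |X| := by positivity
  nlinarith

lemma Competitor.bottom_Phi (hu : Competitor u) {m : ℕ}
    (hm : (Xr m + m + 1) * Real.exp (-2 * m) ≤ 1 / 4) (hm1 : 1 ≤ m) {ε : ℝ} (hε : 0 < ε)
    (hε1 : ε ≤ 1 / 16) : ‖∫ x in (Xl m)..(Xr m), Phi u (x + ε * I)‖ ≤ delta m := by
  have hm1' : (1 : ℝ) ≤ m := by exact_mod_cast hm1
  have hY : ε ≤ (m : ℝ) := by linarith
  have hpi := Real.pi_pos
  have hXr : 0 < Xr m := by unfold Xr; positivity
  refine (rect_bottom_le hu.diff_Phi hε hY).trans ?_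
  unfold delta
  have h1 : ‖∫ x in (Xl m)..(Xr m), Phi u (x + (m : ℝ) * I)‖ ≤
      16 * Real.exp (-m) * (Xr m - Xl m) := by
    have h2 := intervalIntegral.norm_integral_le_of_norm_le_const (a := Xl m) (b := Xr m)
      (f := fun x : ℝ => Phi u (x + (m : ℝ) * I)) (C := 16 * Real.exp (-m)) ?_
    · rwa [abs_of_nonneg (by linarith [Xl_le_Xr m])] at h2
    · intro x hx
      rw [uIoc_of_le (Xl_le_Xr m)] at hx
      have hD := Dd_top hm (Ioc_subset_Icc_self hx)
      have him : (x + (m : ℝ) * I : ℂ).im = m := by simp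
      have hHP : (x + (m : ℝ) * I : ℂ) ∈ HP := by
        show 0 < (x + (m : ℝ) * I : ℂ).im
        rw [him]; linarith
      have h3 := hu.norm_Phi_le hHP (c := 1 / 4) (by norm_num) hD
      rw [him] at h3
      refine h3.trans ?_
      have h4 := one_le_norm_add_I (z := (x + (m : ℝ) * I : ℂ)) (by rw [him]; linarith)
      calc 4 * Real.exp (-m) / (1 / 4 * ‖(x + (m : ℝ) * I + I : ℂ)‖)
          ≤ 4 * Real.exp (-m) / (1 / 4 * 1) := by gcongr
        _ = 16 * Real.exp (-m) := by ring
  have h2 : ‖∫ y in ε..(m : ℝ), Phi u (Xr m + y * I)‖ ≤ 8 / Xr m := by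
    have := hu.side hε hY hXr.ne' (Dd_right m)
    rwa [abs_of_pos hXr] at this
  have h3 : ‖∫ y in ε..(m : ℝ), Phi u (Xl m + y * I)‖ ≤ 8 / (Real.pi * m) := by
    have hXl : Xl m < 0 := by
      unfold Xl
      have : 0 < Real.pi * m := by positivity
      linarith
    have := hu.side hε hY hXl.ne (Dd_left m)
    rwa [abs_of_neg hXl, show -Xl m = Real.pi * m by unfold Xl; ring] at this
  linarith


/-! ### the weighted mean square of the difference near the real axis -/

def psi (u : ℂ → ℂ) (z : ℂ) : ℂ := (vv u z) ^ 2 / (z + I) ^ 2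

lemma add_I_ne_zero {z : ℂ} (hz : 0 ≤ z.im) : z + I ≠ 0 := by
  have := one_le_norm_add_I hz
  intro h
  rw [h, norm_zero] at this
  linarith

lemma Competitor.diff_psi (hu : Competitor u) : DifferentiableOn ℂ (psi u) HP := by
  unfold psi
  refine DifferentiableOn.div (hu.diff_vv.pow 2) (by fun_prop) ?_
  intro z hz
  exact pow_ne_zero _ (add_I_ne_zero (le_of_lt hz))

lemma line_mem {x ε : ℝ} (hε : 0 < ε) : (x + ε * I : ℂ) ∈ HP := by
  show 0 < (x + ε * I : ℂ).im
  simpa using hε

lemma continuous_line {f : ℂ → ℂ} (hf : DifferentiableOn ℂ f HP) {ε : ℝ} (hε : 0 < ε) :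
    Continuous (fun x : ℝ => f (x + ε * I)) := by
  refine hf.continuousOn.comp_continuous (by fun_prop) fun x => line_mem hε

lemma norm_sq_line (x ε : ℝ) : ‖(x + ε * I + I : ℂ)‖ ^ 2 = x ^ 2 + (ε + 1) ^ 2 := by
  rw [← normSq_eq_norm_sq, normSq_apply]
  simp
  ring

lemma Competitor.psi_le (hu : Competitor u) {x ε : ℝ} (hε : 0 < ε) (hε1 : ε ≤ 1 / 16) :
    ‖psi u (x + ε * I)‖ ≤ -(9 / 2) * (Phi u (x + ε * I)).re + 936 * ε * (1 + x ^ 2)⁻¹ := by
  have h1 := hu.key (x := x) hε hε1
  have him : (x + ε * I : ℂ).im = ε := by simp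
  have hK1 := Kk_lower (z := (x + ε * I : ℂ)) (by rw [him]; exact hε.le)
  have hK2 := Kk_upper (z := (x + ε * I : ℂ)) (by rw [him]; exact hε.le)
  have hn := one_le_norm_add_I (z := (x + ε * I : ℂ)) (by rw [him]; exact hε.le)
  have hsq := norm_sq_line x ε
  set K := ‖Kk (x + ε * I)‖ with hK
  set N := ‖(x + ε * I + I : ℂ)‖ with hN
  set v := ‖vv u (x + ε * I)‖ with hv
  have hpsi : ‖psi u (x + ε * I)‖ = v ^ 2 / N ^ 2 := by
    unfold psi
    rw [norm_div, norm_pow, norm_pow]
  have hKpos : 0 < K := by linarith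
  have hNpos : 0 < N := by linarith
  have h2 : v ^ 2 / N ^ 2 ≤ 9 / 4 * (v ^ 2 / K ^ 2) := by
    have h3 : K ^ 2 ≤ 9 / 4 * N ^ 2 := by nlinarith
    rw [mul_div_assoc', div_le_div_iff₀ (by positivity) (by positivity)]
    have h4 : 0 ≤ v ^ 2 := by positivity
    nlinarith
  have h3 : 104 * ε / K ^ 2 ≤ 416 * ε * (1 + x ^ 2)⁻¹ := by
    have h4 : (1 + x ^ 2) ≤ 4 * K ^ 2 := by nlinarith
    rw [← div_eq_mul_inv, div_le_div_iff₀ (by positivity) (by positivity)]
    nlinarith
  rw [hpsi]
  nlinarith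

lemma Competitor.integral_psi_le (hu : Competitor u) {m : ℕ}
    (hm : (Xr m + m + 1) * Real.exp (-2 * m) ≤ 1 / 4) (hm1 : 1 ≤ m) {ε : ℝ} (hε : 0 < ε)
    (hε1 : ε ≤ 1 / 16) :
    ∫ x in (Xl m)..(Xr m), ‖psi u (x + ε * I)‖ ≤ 9 / 2 * delta m + 936 * Real.pi * ε := by
  have hle := Xl_le_Xr m
  have hcPhi := continuous_line hu.diff_Phi hε
  have hcpsi := continuous_line hu.diff_psi hε
  have hc1 : Continuous fun x : ℝ => -(9 / 2) * (Phi u (x + ε * I)).re :=
    continuous_const.mul (Complex.continuous_re.comp hcPhi)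
  have hc2 : Continuous fun x : ℝ => 936 * ε * (1 + x ^ 2)⁻¹ := by
    refine continuous_const.mul (Continuous.inv₀ (by fun_prop) fun x => ?_)
    positivity
  calc ∫ x in (Xl m)..(Xr m), ‖psi u (x + ε * I)‖
      ≤ ∫ x in (Xl m)..(Xr m), (-(9 / 2) * (Phi u (x + ε * I)).re + 936 * ε * (1 + x ^ 2)⁻¹) := by
        refine intervalIntegral.integral_mono_on hle (hcpsi.norm.intervalIntegrable _ _)
          ((hc1.add hc2).intervalIntegrable _ _) fun x _ => hu.psi_le hε hε1
    _ = -(9 / 2) * (∫ x in (Xl m)..(Xr m), (Phi u (x + ε * I)).re) +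
          936 * ε * ∫ x in (Xl m)..(Xr m), (1 + x ^ 2)⁻¹ := by
        rw [intervalIntegral.integral_add (hc1.intervalIntegrable _ _)
          (hc2.intervalIntegrable _ _), intervalIntegral.integral_const_mul,
          intervalIntegral.integral_const_mul]
    _ ≤ 9 / 2 * delta m + 936 * ε * Real.pi := by
        have h1 : (∫ x in (Xl m)..(Xr m), (Phi u (x + ε * I)).re) =
            (∫ x in (Xl m)..(Xr m), Phi u (x + ε * I)).re := by
          have := Complex.reCLM.intervalIntegral_comp_comm (hcPhi.intervalIntegrable (μ := volume) (Xl m) (Xr m))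
          simpa using this
        have h2 := (Complex.abs_re_le_norm (∫ x in (Xl m)..(Xr m), Phi u (x + ε * I))).trans
          (hu.bottom_Phi hm hm1 hε hε1)
        have h3 := neg_abs_le (∫ x in (Xl m)..(Xr m), Phi u (x + ε * I)).re
        rw [h1, integral_inv_one_add_sq]
        have h4 := Real.arctan_lt_pi_div_two (Xr m)
        have h5 := Real.neg_pi_div_two_lt_arctan (Xl m)
        have h6 : 936 * ε * (Real.arctan (Xr m) - Real.arctan (Xl m)) ≤ 936 * ε * Real.pi := by
          gcongr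
          linarith
        linarith
    _ = _ := by ring

/-! ### the Cauchy kernel -/

/-- The Cauchy quotient of `psi` with the pole cancelled. -/
def NN (u : ℂ → ℂ) (p p' : ℂ) (z : ℂ) : ℂ := psi u z - psi u p * ((p - p') / (z - p'))

lemma Competitor.norm_psi_le (hu : Competitor u) {z : ℂ} (hz : z ∈ HP) :
    ‖psi u z‖ ≤ 4 / ‖z + I‖ ^ 2 := by
  unfold psi
  rw [norm_div, norm_pow, norm_pow]
  have h1 := hu.norm_vv_le hz
  have h2 := norm_nonneg (vv u z)
  gcongr
  nlinarith

lemma Competitor.psi_eq_zero (hu : Competitor u) {p : ℂ} (hp : p ∈ HP) : psi u p = 0 := by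
  have hb : 0 < p.im := hp
  set b := p.im with hbdef
  set a := p.re with hadef
  have hpi := Real.pi_pos
  -- for each small ε and each large m an inequality
  have main : ∀ ε : ℝ, 0 < ε → ε ≤ 1 / 16 → ε ≤ b / 2 →
      ‖psi u p‖ * (2 * b / (1 + b ^ 2)) ≤ 2 / b * (936 * Real.pi * ε) := by
    intro ε hε hε1 hε2
    set p' : ℂ := conj p + 2 * ε * I with hp'
    have hp're : p'.re = a := by simp [hp', hadef]
    have hp'im : p'.im = 2 * ε - b := by simp [hp', hbdef]; ring
    -- the function and its differentiability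
    have hzp' : ∀ z : ℂ, 0 < z.im → z - p' ≠ 0 := by
      intro z hz h
      have h1 := congrArg Complex.im h
      rw [sub_im, hp'im, zero_im] at h1
      have : 2 * ε - b ≤ 0 := by linarith
      linarith
    have hNdiff : DifferentiableOn ℂ (NN u p p') HP := by
      unfold NN
      refine hu.diff_psi.sub (DifferentiableOn.const_mul ?_ _)
      exact DifferentiableOn.div (by fun_prop) (by fun_prop) fun z hz => hzp' z hz
    have hNp : NN u p p' p = 0 := by
      unfold NN
      rw [div_self (hzp' p hp), mul_one, sub_self]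
    set q := dslope (NN u p p') p with hq
    have hqdiff : DifferentiableOn ℂ q HP :=
      (differentiableOn_dslope (isOpen_HP.mem_nhds hp)).2 hNdiff
    have hqval : ∀ z : ℂ, z ≠ p → q z = NN u p p' z / (z - p) := by
      intro z hz
      rw [hq, dslope_of_ne _ hz, slope_def_field, hNp, sub_zero]
    have hppn : ‖p - p'‖ = 2 * (b - ε) := by
      have h1 : p - p' = ((2 * (b - ε) : ℝ) : ℂ) * I := by
        apply Complex.ext
        · rw [sub_re, hp're, ← hadef]; simp
        · rw [sub_im, hp'im, ← hbdef]; simp; ring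
      rw [h1, norm_mul, norm_I, mul_one, Complex.norm_real, Real.norm_eq_abs,
        abs_of_nonneg (by linarith)]
    -- bound of q far away
    set C : ℝ := 4 + ‖psi u p‖ * (2 * b) with hC
    have hC0 : 0 ≤ C := by positivity
    have hqbound : ∀ (z : ℂ) (L : ℝ), z ∈ HP → 1 ≤ L → L ≤ ‖z + I‖ → L ≤ ‖z - p'‖ →
        L ≤ ‖z - p‖ → ‖q z‖ ≤ C / L ^ 2 := by
      intro z L hz hL h1 h2 h3
      have hL0 : 0 < L := by linarith
      have hzp : z ≠ p := by
        rintro rfl
        rw [sub_self, norm_zero] at h3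
        linarith
      rw [hqval z hzp, norm_div]
      have h4 : ‖NN u p p' z‖ ≤ C / L := by
        unfold NN
        refine (norm_sub_le _ _).trans ?_
        rw [norm_mul, norm_div, hppn]
        have h5 := hu.norm_psi_le hz
        have h6 : 4 / ‖z + I‖ ^ 2 ≤ 4 / L := by
          gcongr
          nlinarith
        have h7 : ‖psi u p‖ * (2 * (b - ε) / ‖z - p'‖) ≤ ‖psi u p‖ * (2 * b / L) := by
          gcongr
          linarith
        have h8 : C / L = 4 / L + ‖psi u p‖ * (2 * b / L) := by rw [hC]; ring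
        linarith
      calc ‖NN u p p' z‖ / ‖z - p‖ ≤ (C / L) / L := by gcongr
        _ = C / L ^ 2 := by ring
    -- the sides
    set eta : ℕ → ℝ := fun m => C / ((m : ℝ) - b) ^ 2 * (Xr m - Xl m) +
      C / (Xr m - |a|) ^ 2 * m + C / (Real.pi * m - |a|) ^ 2 * m with heta
    have hqbot : ∀ᶠ m : ℕ in atTop, ‖∫ x in (Xl m)..(Xr m), q (x + ε * I)‖ ≤ eta m := by
      have e1 : ∀ᶠ m : ℕ in atTop, b + 1 ≤ (m : ℝ) :=
        tendsto_natCast_atTop_atTop.eventually_ge_atTop _
      have e2 : ∀ᶠ m : ℕ in atTop, |a| + 1 ≤ Real.pi * (m : ℝ) :=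
        pim_tendsto.eventually_ge_atTop _
      filter_upwards [e1, e2] with m h1 h2
      have hY : ε ≤ (m : ℝ) := by linarith
      have hmpos : (0 : ℝ) < m := by linarith
      refine (rect_bottom_le hqdiff hε hY).trans ?_
      have ha0 := abs_nonneg a
      have t1 : ‖∫ x in (Xl m)..(Xr m), q (x + (m : ℝ) * I)‖ ≤
          C / ((m : ℝ) - b) ^ 2 * (Xr m - Xl m) := by
        have h3 := intervalIntegral.norm_integral_le_of_norm_le_const (a := Xl m) (b := Xr m)
          (f := fun x : ℝ => q (x + (m : ℝ) * I)) (C := C / ((m : ℝ) - b) ^ 2) ?_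
        · rwa [abs_of_nonneg (by linarith [Xl_le_Xr m])] at h3
        · intro x _
          have him : (x + (m : ℝ) * I : ℂ).im = m := by simp
          refine hqbound _ _ (line_mem hmpos) (by linarith) ?_ ?_ ?_
          · have := Complex.abs_im_le_norm (x + (m : ℝ) * I + I : ℂ)
            rw [add_im, him, I_im] at this
            have := le_abs_self ((m : ℝ) + 1)
            linarith
          · have := Complex.abs_im_le_norm (x + (m : ℝ) * I - p' : ℂ)
            rw [sub_im, him, hp'im] at this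
            have := le_abs_self ((m : ℝ) - (2 * ε - b))
            linarith
          · have := Complex.abs_im_le_norm (x + (m : ℝ) * I - p : ℂ)
            rw [sub_im, him, ← hbdef] at this
            have := le_abs_self ((m : ℝ) - b)
            linarith
      have side : ∀ X L : ℝ, L = |X| - |a| → 1 ≤ L → ‖∫ y in ε..(m : ℝ), q (X + y * I)‖ ≤
          C / L ^ 2 * m := by
        intro X L hLdef hL
        have h3 := intervalIntegral.norm_integral_le_of_norm_le_const (a := ε) (b := (m : ℝ))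
          (f := fun y : ℝ => q (X + y * I)) (C := C / L ^ 2) ?_
        · rw [abs_of_nonneg (by linarith)] at h3
          refine h3.trans ?_
          gcongr
          linarith
        · intro y hy
          rw [uIoc_of_le hY] at hy
          have hy0 : 0 < y := lt_trans hε hy.1
          have hre : (X + y * I : ℂ).re = X := by simp
          refine hqbound _ _ (line_mem hy0) hL ?_ ?_ ?_
          · have h4 := Complex.abs_re_le_norm (X + y * I + I : ℂ)
            rw [add_re, hre, I_re, add_zero] at h4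
            linarith
          · have h4 := Complex.abs_re_le_norm (X + y * I - p' : ℂ)
            rw [sub_re, hre, hp're] at h4
            have := abs_sub_abs_le_abs_sub X a
            linarith
          · have h4 := Complex.abs_re_le_norm (X + y * I - p : ℂ)
            rw [sub_re, hre, ← hadef] at h4
            have := abs_sub_abs_le_abs_sub X a
            linarith
      have hXr : |Xr m| = Xr m := abs_of_pos (by unfold Xr; positivity)
      have hXl : |Xl m| = Real.pi * m := by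
        unfold Xl; rw [abs_neg, abs_of_pos (by positivity)]
      have t2 := side (Xr m) (Xr m - |a|) (by rw [hXr]) (by unfold Xr; linarith)
      have t3 := side (Xl m) (Real.pi * m - |a|) (by rw [hXl]) (by linarith)
      simp only [heta]
      linarith
    have heta0 : Tendsto eta atTop (𝓝 0) := by
      have g1 : Tendsto (fun m : ℕ => ((m : ℝ))⁻¹) atTop (𝓝 0) :=
        tendsto_inv_atTop_zero.comp tendsto_natCast_atTop_atTop
      have key : ∀ A B D E : ℝ, 0 < A → Tendsto (fun m : ℕ => (D * (m : ℝ) + E) / (A * m - B) ^ 2)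
          atTop (𝓝 0) := by
        intro A B D E hA
        have g2 : Tendsto (fun m : ℕ => (D * (m : ℝ)⁻¹ + E * ((m : ℝ)⁻¹) ^ 2) /
            (A - B * (m : ℝ)⁻¹) ^ 2) atTop (𝓝 ((D * 0 + E * 0 ^ 2) / (A - B * 0) ^ 2)) := by
          refine Tendsto.div ((g1.const_mul D).add ((g1.pow 2).const_mul E))
            ((tendsto_const_nhds.sub (g1.const_mul B)).pow 2) ?_
          simp [hA.ne']
        simp only [mul_zero, ne_eq, OfNat.ofNat_ne_zero, not_false_eq_true, zero_pow, add_zero,
          zero_div] at g2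
        refine g2.congr' ?_
        filter_upwards [eventually_gt_atTop 0] with m hm
        have hm' : (m : ℝ) ≠ 0 := by exact_mod_cast hm.ne'
        have e1 : (D * (m : ℝ)⁻¹ + E * ((m : ℝ)⁻¹) ^ 2) = (D * m + E) / (m : ℝ) ^ 2 := by
          field_simp
        have e2 : (A - B * (m : ℝ)⁻¹) ^ 2 = (A * m - B) ^ 2 / (m : ℝ) ^ 2 := by
          field_simp
        rw [e1, e2, div_div_div_cancel_right₀ (by positivity)]
      have k1 := key 1 b (C * (2 * Real.pi)) (C * (Real.pi / 2)) one_pos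
      have k2 := key Real.pi (|a| - Real.pi / 2) C 0 hpi
      have k3 := key Real.pi |a| C 0 hpi
      have k4 := (k1.add k2).add k3
      simp only [add_zero] at k4
      refine k4.congr fun m => ?_
      simp only [heta]
      unfold Xr Xl
      ring_nf
    -- lower bound of the positive kernel integral
    have hJ : ∀ᶠ m : ℕ in atTop, 2 / (1 + b ^ 2) ≤
        ∫ x in (Xl m)..(Xr m), ((x - a) ^ 2 + (b - ε) ^ 2)⁻¹ := by
      have e1 : ∀ᶠ m : ℕ in atTop, |a| + 1 ≤ Real.pi * (m : ℝ) :=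
        pim_tendsto.eventually_ge_atTop _
      filter_upwards [e1] with m h1
      have hbε : 0 < b - ε := by linarith
      have hcont : Continuous fun x : ℝ => ((x - a) ^ 2 + (b - ε) ^ 2)⁻¹ :=
        Continuous.inv₀ (by fun_prop) fun x => by positivity
      have ha1 := neg_abs_le a
      have ha2 := le_abs_self a
      have hsub : ∫ x in (a - 1)..(a + 1), ((x - a) ^ 2 + (b - ε) ^ 2)⁻¹ ≤
          ∫ x in (Xl m)..(Xr m), ((x - a) ^ 2 + (b - ε) ^ 2)⁻¹ := by
        refine intervalIntegral.integral_mono_interval ?_ (by linarith) ?_ ?_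
          (hcont.intervalIntegrable _ _)
        · unfold Xl; linarith
        · unfold Xr; linarith
        · exact Filter.Eventually.of_forall fun x => by positivity
      refine le_trans ?_ hsub
      have h3 : ∫ _x in (a - 1)..(a + 1), (1 + b ^ 2)⁻¹ ≤
          ∫ x in (a - 1)..(a + 1), ((x - a) ^ 2 + (b - ε) ^ 2)⁻¹ := by
        refine intervalIntegral.integral_mono_on (by linarith) (by simp)
          (hcont.intervalIntegrable _ _) fun x hx => ?_
        have h4 : (x - a) ^ 2 ≤ 1 := by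
          have := hx.1
          have := hx.2
          nlinarith
        have h5 : (b - ε) ^ 2 ≤ b ^ 2 := by nlinarith
        gcongr
      rw [intervalIntegral.integral_const] at h3
      refine le_trans (le_of_eq ?_) h3
      rw [smul_eq_mul]
      ring
    -- put together
    have hfin : ∀ᶠ m : ℕ in atTop, ‖psi u p‖ * (2 * b / (1 + b ^ 2)) ≤
        2 / b * (9 / 2 * delta m + 936 * Real.pi * ε) + eta m := by
      filter_upwards [hqbot, hJ, eventually_top, eventually_ge_atTop 1] with m h1 h2 h3 h4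
      have hIpsi := hu.integral_psi_le h3 h4 hε hε1
      have hle := Xl_le_Xr m
      have hbε : b / 2 ≤ b - ε := by linarith
      have hline : ∀ x : ℝ, q (x + ε * I) = psi u (x + ε * I) / (x + ε * I - p) -
          psi u p * (p - p') * ((((x - a) ^ 2 + (b - ε) ^ 2)⁻¹ : ℝ) : ℂ) := by
        intro x
        have him : (x + ε * I : ℂ).im = ε := by simp
        have hne : (x + ε * I : ℂ) ≠ p := by
          intro h
          have := congrArg Complex.im h
          rw [him, ← hbdef] at this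
          linarith
        rw [hqval _ hne]
        unfold NN
        have hne1 : (x + ε * I - p : ℂ) ≠ 0 := sub_ne_zero.2 hne
        have hne2 : (x + ε * I - p' : ℂ) ≠ 0 := hzp' _ (by rw [him]; exact hε)
        have hprod : (x + ε * I - p : ℂ) * (x + ε * I - p') =
            (((x - a) ^ 2 + (b - ε) ^ 2 : ℝ) : ℂ) := by
          have e1 : (x + ε * I - p : ℂ) = ((x - a : ℝ) : ℂ) - ((b - ε : ℝ) : ℂ) * I := by
            apply Complex.ext
            · simp [← hadef]
            · simp [← hbdef]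
          have e2 : (x + ε * I - p' : ℂ) = ((x - a : ℝ) : ℂ) + ((b - ε : ℝ) : ℂ) * I := by
            apply Complex.ext
            · simp [hp're]
            · simp [hp'im]; ring
          rw [e1, e2]
          push_cast
          linear_combination (-((b : ℂ) - ε) ^ 2) * I_mul_I
        rw [Complex.ofReal_inv, ← hprod]
        field_simp
      have hcq := continuous_line hqdiff hε
      have hcpsi := continuous_line hu.diff_psi hε
      have hdenne : ∀ x : ℝ, (x + ε * I - p : ℂ) ≠ 0 := by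
        intro x h
        have := congrArg Complex.im h
        simp [← hbdef] at this
        linarith
      have hcA : Continuous fun x : ℝ => psi u (x + ε * I) / (x + ε * I - p) :=
        hcpsi.div (by fun_prop) hdenne
      have hcont : Continuous fun x : ℝ => ((x - a) ^ 2 + (b - ε) ^ 2)⁻¹ :=
        Continuous.inv₀ (by fun_prop) fun x => by
          have : 0 < b - ε := by linarith
          positivity
      have hcB : Continuous fun x : ℝ =>
          psi u p * (p - p') * ((((x - a) ^ 2 + (b - ε) ^ 2)⁻¹ : ℝ) : ℂ) :=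
        continuous_const.mul (Complex.continuous_ofReal.comp hcont)
      have hsplit : ∫ x in (Xl m)..(Xr m), q (x + ε * I) =
          (∫ x in (Xl m)..(Xr m), psi u (x + ε * I) / (x + ε * I - p)) -
          psi u p * (p - p') *
            (((∫ x in (Xl m)..(Xr m), ((x - a) ^ 2 + (b - ε) ^ 2)⁻¹) : ℝ) : ℂ) := by
        rw [← intervalIntegral.integral_ofReal, ← intervalIntegral.integral_const_mul,
          ← intervalIntegral.integral_sub (hcA.intervalIntegrable _ _)
            (hcB.intervalIntegrable _ _)]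
        exact intervalIntegral.integral_congr fun x _ => hline x
      set J := ∫ x in (Xl m)..(Xr m), ((x - a) ^ 2 + (b - ε) ^ 2)⁻¹ with hJdef
      have hJ0 : 0 ≤ J := le_trans (by positivity) h2
      have hA : ‖∫ x in (Xl m)..(Xr m), psi u (x + ε * I) / (x + ε * I - p)‖ ≤
          2 / b * (9 / 2 * delta m + 936 * Real.pi * ε) := by
        calc ‖∫ x in (Xl m)..(Xr m), psi u (x + ε * I) / (x + ε * I - p)‖
            ≤ ∫ x in (Xl m)..(Xr m), 2 / b * ‖psi u (x + ε * I)‖ := by
              refine intervalIntegral.norm_integral_le_of_norm_le hle ?_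
                ((continuous_const.mul hcpsi.norm).intervalIntegrable _ _)
              refine Filter.Eventually.of_forall fun x _ => ?_
              rw [norm_div]
              have h5 : b / 2 ≤ ‖(x + ε * I - p : ℂ)‖ := by
                have h6 := Complex.abs_im_le_norm (x + ε * I - p : ℂ)
                rw [sub_im, ← hbdef] at h6
                simp only [add_im, ofReal_im, mul_im, ofReal_re, I_im, mul_one, I_re, mul_zero,
                  add_zero, zero_add] at h6
                have := neg_le_abs (ε - b)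
                linarith
              calc ‖psi u (x + ε * I)‖ / ‖(x + ε * I - p : ℂ)‖
                  ≤ ‖psi u (x + ε * I)‖ / (b / 2) := by gcongr
                _ = 2 / b * ‖psi u (x + ε * I)‖ := by field_simp
          _ = 2 / b * ∫ x in (Xl m)..(Xr m), ‖psi u (x + ε * I)‖ :=
              intervalIntegral.integral_const_mul _ _
          _ ≤ _ := by gcongr
      have hB : ‖psi u p * (p - p') * ((J : ℝ) : ℂ)‖ ≤
          2 / b * (9 / 2 * delta m + 936 * Real.pi * ε) + eta m := by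
        have e1 : psi u p * (p - p') * ((J : ℝ) : ℂ) =
            (∫ x in (Xl m)..(Xr m), psi u (x + ε * I) / (x + ε * I - p)) -
              ∫ x in (Xl m)..(Xr m), q (x + ε * I) := by
          rw [hsplit]; ring
        rw [e1]
        exact (norm_sub_le _ _).trans (add_le_add hA h1)
      refine le_trans ?_ hB
      rw [norm_mul, norm_mul, hppn, Complex.norm_real, Real.norm_eq_abs, abs_of_nonneg hJ0]
      calc ‖psi u p‖ * (2 * b / (1 + b ^ 2)) = ‖psi u p‖ * b * (2 / (1 + b ^ 2)) := by ring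
        _ ≤ ‖psi u p‖ * (2 * (b - ε)) * J :=
          mul_le_mul (mul_le_mul_of_nonneg_left (by linarith) (norm_nonneg _)) h2
            (by positivity) (mul_nonneg (norm_nonneg _) (by linarith))
    have hlim : Tendsto (fun m : ℕ => 2 / b * (9 / 2 * delta m + 936 * Real.pi * ε) + eta m) atTop
        (𝓝 (2 / b * (9 / 2 * 0 + 936 * Real.pi * ε) + 0)) :=
      (((delta_tendsto.const_mul _).add_const _).const_mul _).add heta0
    have := ge_of_tendsto hlim hfin
    simpa using this
  -- let ε → 0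
  have h1 : Tendsto (fun ε : ℝ => 2 / b * (936 * Real.pi * ε)) (𝓝[>] 0) (𝓝 0) := by
    have : Tendsto (fun ε : ℝ => 2 / b * (936 * Real.pi * ε)) (𝓝 0) (𝓝 (2 / b * (936 * Real.pi * 0))) :=
      (continuous_const.mul (continuous_const.mul continuous_id)).tendsto 0
    simp only [mul_zero] at this
    exact this.mono_left nhdsWithin_le_nhds
  have h2 : ∀ᶠ ε in 𝓝[>] (0 : ℝ), ‖psi u p‖ * (2 * b / (1 + b ^ 2)) ≤
      2 / b * (936 * Real.pi * ε) := by
    have e1 : ∀ᶠ ε in 𝓝[>] (0 : ℝ), ε ≤ min (1 / 16) (b / 2) := by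
      have : ∀ᶠ ε in 𝓝 (0 : ℝ), ε ≤ min (1 / 16) (b / 2) :=
        eventually_le_nhds (lt_min (by norm_num) (by linarith))
      exact this.filter_mono nhdsWithin_le_nhds
    filter_upwards [e1, self_mem_nhdsWithin] with ε h3 h4
    exact main ε h4 (h3.trans (min_le_left _ _)) (h3.trans (min_le_right _ _))
  have h3 := ge_of_tendsto h1 h2
  have h4 : 0 < 2 * b / (1 + b ^ 2) := by positivity
  have h5 : ‖psi u p‖ ≤ 0 := by
    by_contra h
    rw [not_le] at h
    have := mul_pos h h4
    linarith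
  exact norm_le_zero_iff.1 h5

/-- A function bounded by one on the half plane agreeing with `exp (i z)` at the zeros of `Dd`
is equal to it. -/
theorem Competitor.eq (hu : Competitor u) {p : ℂ} (hp : p ∈ HP) : u p = exp (I * p) := by
  have h := hu.psi_eq_zero hp
  unfold psi at h
  rw [div_eq_zero_iff] at h
  rcases h with h | h
  · have := pow_eq_zero_iff (two_ne_zero) |>.1 h
    unfold vv at this
    exact sub_eq_zero.1 this
  · exact absurd h (pow_ne_zero _ (add_I_ne_zero (le_of_lt hp)))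

end

end Pool.Agent.MinimalInterpolation
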